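import Pool.Agent.W225.RP.TreeFun
import Pool.Agent.H568R3.Large

/-!
# The determinant of the rigidity matrix in `ℓ_q^d` for odd `q`
-/

set_option autoImplicit false
set_option linter.unusedSectionVars false

namespace Pool.Agent.W225.RP

open Finset
open Pool.Agent.H568R3 (ph NN bet ext0 sum_NN Trees det_expand det_trees_ne_zero exists_parent
  fderiv_lqNorm_eq_zero differentiableAt_lqNorm Rigid lqNorm)

variable {V : Type*} [Fintype V] [DecidableEq V]

/-- A rooted tree can be rerooted. -/
theorem reroot {v0 : V} {g : V → V} (h : RT Finset.univ v0 g) (v : V) :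
    ∃ g', RT Finset.univ v g' ∧ edg Finset.univ v g' = edg Finset.univ v0 g := by
  classical
  set K : SimpleGraph V := SimpleGraph.fromEdgeSet (↑(edg Finset.univ v0 g) : Set (Sym2 V)) with hK
  have hadj : ∀ u, u ≠ v0 → K.Adj u (g u) := by
    intro u hu
    rw [hK, SimpleGraph.fromEdgeSet_adj]
    refine ⟨?_, (h.ne (Finset.mem_univ u) hu).symm⟩
    exact Finset.mem_coe.2 (Finset.mem_image.2 ⟨u, Finset.mem_erase.2 ⟨hu, Finset.mem_univ u⟩, rfl⟩)
  obtain ⟨-, -, -, -, rk, hrk⟩ := id h
  have hreach : ∀ n : ℕ, ∀ u, rk u ≤ n → K.Reachable u v0 := by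
    intro n
    induction n with
    | zero =>
      intro u hn
      by_cases hu : u = v0
      · rw [hu]
      · have := hrk u (Finset.mem_univ u) hu
        omega
    | succ n ih =>
      intro u hn
      by_cases hu : u = v0
      · rw [hu]
      · have h1 := hrk u (Finset.mem_univ u) hu
        exact (hadj u hu).reachable.trans (ih (g u) (by omega))
  have hconn : K.Connected := by
    have : Nonempty V := ⟨v0⟩
    exact SimpleGraph.Connected.mk fun u w =>
      (hreach _ u le_rfl).trans (hreach _ w le_rfl).symm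
  obtain ⟨par, rk', hpar⟩ := exists_parent hconn v
  have hg' : RT Finset.univ v (fun u => if u = v then v else par u) := by
    refine ⟨Finset.mem_univ v, if_pos rfl, fun u hu => absurd (Finset.mem_univ u) hu,
      fun u _ => Finset.mem_univ _, rk', ?_⟩
    intro u _ huv
    simp only [if_neg huv]
    exact (hpar u huv).2
  refine ⟨_, hg', ?_⟩
  apply Finset.eq_of_subset_of_card_le
  · intro e he
    obtain ⟨u, hu, rfl⟩ := Finset.mem_image.1 he
    have huv := (Finset.mem_erase.1 hu).1
    simp only [if_neg huv]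
    have h1 := (hpar u huv).1
    rw [hK, SimpleGraph.fromEdgeSet_adj] at h1
    exact Finset.mem_coe.1 h1.1
  · have h1 := h.card_edg
    have h2 := hg'.card_edg
    omega

variable {v0 : V} {d : ℕ}

/-- The edge of a row. -/
def er (par : Fin d → V → V) (r : Fin d × {v : V // v ≠ v0}) : Sym2 V := s(r.2.1, par r.1 r.2.1)

/-- The edges of the rows with color `j`. -/
def TT (par : Fin d → V → V) (f : Fin d × {v : V // v ≠ v0} → Fin d) (j : Fin d) :
    Finset (Sym2 V) := (Finset.univ.filter fun r => f r = j).image (er par)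

/-- The coefficient of a coloring of the rows. -/
noncomputable def KK (par : Fin d → V → V) (f : Fin d × {v : V // v ≠ v0} → Fin d) : ℝ :=
  Matrix.det (Matrix.of fun (r c : Fin d × {v : V // v ≠ v0}) => NN par r (f r) c)

theorem er_inj {par : Fin d → V → V} {rk : Fin d → V → ℕ} (hT : Trees v0 par rk) :
    Function.Injective (er par : Fin d × {v : V // v ≠ v0} → Sym2 V) := by
  rintro ⟨i, v, hv⟩ ⟨j, w, hw⟩ h
  obtain ⟨h1, h2⟩ := hT.inj i v j w hv hw h
  subst h1 h2
  rfl

theorem par_ne {par : Fin d → V → V} {rk : Fin d → V → ℕ} (hT : Trees v0 par rk) (i : Fin d)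
    (v : V) (hv : v ≠ v0) : v ≠ par i v := by
  intro h
  have := hT.lt i v hv
  rw [← h] at this
  exact lt_irrefl _ this

theorem TT_subset {par : Fin d → V → V} {rk : Fin d → V → ℕ} (hT : Trees v0 par rk)
    (f : Fin d × {v : V // v ≠ v0} → Fin d) (j : Fin d) : TT par f j ⊆ EA Finset.univ := by
  intro e he
  obtain ⟨r, -, rfl⟩ := Finset.mem_image.1 he
  unfold er
  rw [mem_EA]
  exact ⟨Finset.mem_univ _, Finset.mem_univ _, par_ne hT _ _ r.2.2⟩

/-- The color classes of a coloring with nonzero coefficient are trees. -/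
theorem KK_tree {par : Fin d → V → V} {rk : Fin d → V → ℕ} (hT : Trees v0 par rk)
    {f : Fin d × {v : V // v ≠ v0} → Fin d} (hf : KK par f ≠ 0) (j : Fin d) :
    Sup Finset.univ (TT par f j) := by
  classical
  have h1 : ∃ σ : Equiv.Perm (Fin d × {v : V // v ≠ v0}), ∀ c, NN par (σ c) (f (σ c)) c ≠ 0 := by
    unfold KK at hf
    rw [Matrix.det_apply] at hf
    obtain ⟨σ, _, h2⟩ := Finset.exists_ne_zero_of_sum_ne_zero hf
    refine ⟨σ, fun c h3 => h2 ?_⟩
    rw [Finset.prod_eq_zero (Finset.mem_univ c) (by rw [Matrix.of_apply]; exact h3), smul_zero]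
  obtain ⟨σ, hσ⟩ := h1
  have h2 : ∀ c, c.1 = f (σ c) ∧ (c.2.1 = (σ c).2.1 ∨ c.2.1 = par (σ c).1 (σ c).2.1) := by
    intro c
    have h3 := hσ c
    unfold NN bet at h3
    by_cases h4 : c.1 = f (σ c)
    · refine ⟨h4, ?_⟩
      rw [if_pos h4] at h3
      by_contra h5
      push Not at h5
      rw [if_neg h5.1, if_neg h5.2, sub_zero] at h3
      exact h3 rfl
    · rw [if_neg h4] at h3
      exact absurd rfl h3
  -- the parent function
  set g : V → V := fun u => if hu : u ≠ v0 then
    (if u = (σ (j, ⟨u, hu⟩)).2.1 then par (σ (j, ⟨u, hu⟩)).1 (σ (j, ⟨u, hu⟩)).2.1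
      else (σ (j, ⟨u, hu⟩)).2.1) else v0 with hg
  have hg0 : g v0 = v0 := by
    rw [hg]
    simp
  have hge : ∀ u (hu : u ≠ v0), er par (σ (j, ⟨u, hu⟩)) = s(u, g u) := by
    intro u hu
    rw [hg]
    simp only [dif_pos hu]
    rcases (h2 (j, ⟨u, hu⟩)).2 with h3 | h3
    · simp only at h3
      rw [if_pos h3]
      unfold er
      rw [← h3]
    · simp only at h3
      have h4 : u ≠ (σ (j, ⟨u, hu⟩)).2.1 := by
        intro h5
        have h6 := par_ne hT (σ (j, ⟨u, hu⟩)).1 (σ (j, ⟨u, hu⟩)).2.1 (σ (j, ⟨u, hu⟩)).2.2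
        rw [← h5] at h6 h3
        exact h6 h3
      rw [if_neg h4]
      unfold er
      rw [← h3, Sym2.eq_swap]
  have hrow : ∀ r, f r = j → ∃ u, ∃ hu : u ≠ v0, σ (j, ⟨u, hu⟩) = r := by
    intro r hr
    have h3 := (h2 (σ.symm r)).1
    rw [Equiv.apply_symm_apply, hr] at h3
    refine ⟨(σ.symm r).2.1, (σ.symm r).2.2, ?_⟩
    have h4 : (j, (⟨(σ.symm r).2.1, (σ.symm r).2.2⟩ : {v : V // v ≠ v0})) = σ.symm r := by
      rw [← h3]
    rw [h4, Equiv.apply_symm_apply]
  -- every vertex reaches the root
  have hreach : ∀ u, ∃ n : ℕ, g^[n] u = v0 := by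
    by_contra hcon
    push Not at hcon
    obtain ⟨u0, hu0⟩ := hcon
    apply hf
    unfold KK
    rw [← Matrix.exists_mulVec_eq_zero_iff]
    set S : Set V := {u | ∀ n : ℕ, g^[n] u ≠ v0} with hS
    have hgS : ∀ u, u ≠ v0 → (g u ∈ S ↔ u ∈ S) := by
      intro u hu
      constructor
      · intro h n
        cases n with
        | zero => exact hu
        | succ n =>
          rw [Function.iterate_succ_apply]
          exact h n
      · intro h n
        have := h (n + 1)
        rwa [Function.iterate_succ_apply] at this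
    have hv0S : v0 ∉ S := fun h => h 0 rfl
    refine ⟨fun c => if c.1 = j ∧ c.2.1 ∈ S then 1 else 0, ?_, ?_⟩
    · intro h
      have hu0' : u0 ≠ v0 := hu0 0
      have h3 : (if j = j ∧ u0 ∈ S then (1 : ℝ) else 0) = 0 := congrFun h (j, ⟨u0, hu0'⟩)
      rw [if_pos ⟨rfl, hu0⟩] at h3
      exact one_ne_zero h3
    · funext r
      show ∑ c, NN par r (f r) c * _ = _
      rw [sum_NN, Pi.zero_apply]
      by_cases hr : f r = j
      · obtain ⟨u, hu, hur⟩ := hrow r hr
        have h3 := hge u hu
        rw [hur] at h3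
        have hext : ∀ x : V, ext0 (fun c : Fin d × {v : V // v ≠ v0} =>
            if c.1 = j ∧ c.2.1 ∈ S then (1 : ℝ) else 0) (f r) x = if x ∈ S then 1 else 0 := by
          intro x
          unfold ext0
          by_cases hx : x ≠ v0
          · rw [dif_pos hx]
            simp only [hr, true_and]
          · rw [dif_neg hx]
            push Not at hx
            rw [if_neg (by rw [hx]; exact hv0S)]
        rw [hext, hext]
        unfold er at h3
        have h4 := hgS u hu
        rcases Sym2.eq_iff.1 h3 with ⟨h5, h6⟩ | ⟨h5, h6⟩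
        · rw [h6, h5]
          by_cases h7 : u ∈ S
          · rw [if_pos h7, if_pos (h4.2 h7), sub_self]
          · rw [if_neg h7, if_neg (fun h => h7 (h4.1 h)), sub_self]
        · rw [h6, h5]
          by_cases h7 : u ∈ S
          · rw [if_pos h7, if_pos (h4.2 h7), sub_self]
          · rw [if_neg h7, if_neg (fun h => h7 (h4.1 h)), sub_self]
      · have hext : ∀ x : V, ext0 (fun c : Fin d × {v : V // v ≠ v0} =>
            if c.1 = j ∧ c.2.1 ∈ S then (1 : ℝ) else 0) (f r) x = 0 := by
          intro x
          unfold ext0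
          by_cases hx : x ≠ v0
          · rw [dif_pos hx]
            simp only [hr, false_and, if_false]
          · rw [dif_neg hx]
        rw [hext, hext, sub_self]
  have hRT : RT Finset.univ v0 g := by
    refine ⟨Finset.mem_univ v0, hg0, fun u hu => absurd (Finset.mem_univ u) hu,
      fun u _ => Finset.mem_univ _, fun u => Nat.find (hreach u), ?_⟩
    intro u _ hu
    have h3 := Nat.find_spec (hreach u)
    have h4 : Nat.find (hreach u) ≠ 0 := by
      intro h5
      rw [h5] at h3
      exact hu h3
    obtain ⟨n, hn⟩ := Nat.exists_eq_succ_of_ne_zero h4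
    rw [hn, Function.iterate_succ_apply] at h3
    simp only
    rw [hn]
    exact Nat.lt_succ_of_le (Nat.find_min' (hreach (g u)) h3)
  have hedg : edg Finset.univ v0 g = TT par f j := by
    ext e
    unfold edg TT
    rw [Finset.mem_image, Finset.mem_image]
    constructor
    · rintro ⟨u, hu, rfl⟩
      have hu' := (Finset.mem_erase.1 hu).1
      refine ⟨σ (j, ⟨u, hu'⟩), ?_, hge u hu'⟩
      rw [Finset.mem_filter]
      exact ⟨Finset.mem_univ _, ((h2 (j, ⟨u, hu'⟩)).1).symm⟩
    · rintro ⟨r, hr, rfl⟩
      obtain ⟨u, hu, hur⟩ := hrow r (Finset.mem_filter.1 hr).2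
      refine ⟨u, Finset.mem_erase.2 ⟨hu, Finset.mem_univ _⟩, ?_⟩
      rw [← hur, hge u hu]
  refine ⟨TT_subset hT f j, ?_, ?_⟩
  · rw [← hedg]
    exact hRT.card_edg
  · intro v _
    obtain ⟨g', hg', he⟩ := reroot hRT v
    exact ⟨g', hg', he.trans hedg⟩

/-- The rigidity matrix of a placement. -/
noncomputable def MG (s : ℝ) (par : Fin d → V → V) (p : V → Fin d → ℝ) :
    Matrix (Fin d × {v : V // v ≠ v0}) (Fin d × {v : V // v ≠ v0}) ℝ :=
  Matrix.of fun r c => ∑ j, ph s (p r.2.1 j - p (par r.1 r.2.1) j) * NN par r j c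

theorem MG_det (s : ℝ) {par : Fin d → V → V} {rk : Fin d → V → ℕ} (hT : Trees v0 par rk)
    (p : V → Fin d → ℝ) : (MG s par p : Matrix (Fin d × {v : V // v ≠ v0}) _ ℝ).det =
      (∏ r : Fin d × {v : V // v ≠ v0}, -et r.2.1 (par r.1 r.2.1)) *
        ∑ f : Fin d × {v : V // v ≠ v0} → Fin d, KK par f *
          ∏ j, WW s (fun v => p v j) (TT par f j) := by
  classical
  unfold MG
  rw [det_expand, Finset.mul_sum]
  apply Finset.sum_congr rfl
  intro f _
  have h1 : ∏ r, ph s (p r.2.1 (f r) - p (par r.1 r.2.1) (f r)) =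
      (∏ r : Fin d × {v : V // v ≠ v0}, -et r.2.1 (par r.1 r.2.1)) *
        ∏ r : Fin d × {v : V // v ≠ v0}, phi s (fun v => p v (f r)) (er par r) := by
    rw [← Finset.prod_mul_distrib]
    apply Finset.prod_congr rfl
    intro r _
    unfold er
    rw [phi_mk, ← neg_sub (p r.2.1 (f r)), ph_neg]
    have := et_mul_self r.2.1 (par r.1 r.2.1)
    calc ph s (p r.2.1 (f r) - p (par r.1 r.2.1) (f r)) =
        (et r.2.1 (par r.1 r.2.1) * et r.2.1 (par r.1 r.2.1)) *
          ph s (p r.2.1 (f r) - p (par r.1 r.2.1) (f r)) := by rw [this, one_mul]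
      _ = _ := by ring
  have h2 : ∏ r : Fin d × {v : V // v ≠ v0}, phi s (fun v => p v (f r)) (er par r) =
      ∏ j, WW s (fun v => p v j) (TT par f j) := by
    rw [← Finset.prod_fiberwise Finset.univ f]
    apply Finset.prod_congr rfl
    intro j _
    unfold WW TT
    rw [Finset.prod_image (fun a _ b _ h => er_inj hT h)]
    apply Finset.prod_congr rfl
    intro r hr
    rw [(Finset.mem_filter.1 hr).2]
  rw [h1, h2]
  unfold KK
  ring

/-- The determinant is not identically zero for even exponents. -/
theorem exists_det (k : ℕ) {par : Fin d → V → V} {rk : Fin d → V → ℕ} (hT : Trees v0 par rk) :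
    ∃ p : V → Fin d → ℝ, (∀ j, Function.Injective fun v => p v j) ∧
      (MG (2 * (k + 1) : ℕ) par p : Matrix (Fin d × {v : V // v ≠ v0}) _ ℝ).det ≠ 0 := by
  classical
  by_contra hcon
  push Not at hcon
  set s : ℝ := ((2 * (k + 1) : ℕ) : ℝ) with hs
  set fs : Fin d × {v : V // v ≠ v0} → Fin d := fun r => r.1 with hfs
  have h0 : ∀ p : V → Fin d → ℝ, (∀ j, Function.Injective fun v => p v j) →
      ∑ f : Fin d × {v : V // v ≠ v0} → Fin d, KK par f *
          ∏ j, WW s (fun v => p v j) (TT par f j) = 0 := by
    intro p hp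
    have h1 := hcon p hp
    rw [MG_det s hT] at h1
    rcases mul_eq_zero.1 h1 with h2 | h2
    · exfalso
      rw [Finset.prod_eq_zero_iff] at h2
      obtain ⟨r, -, hr⟩ := h2
      exact et_sgn.ne _ _ (par_ne hT r.1 r.2.1 r.2.2) (neg_eq_zero.1 hr)
    · exact h2
  have key : ∀ S : Finset (Fin d), ∀ p : V → Fin d → ℝ, (∀ j, Function.Injective fun v => p v j) →
      ∑ f ∈ Finset.univ.filter (fun f : Fin d × {v : V // v ≠ v0} → Fin d =>
        ∀ i ∈ S, TT par f i = TT par fs i), KK par f *
          ∏ j ∈ Finset.univ \ S, WW s (fun v => p v j) (TT par f j) = 0 := by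
    intro S
    induction S using Finset.induction_on with
    | empty =>
      intro p hp
      rw [← h0 p hp]
      apply Finset.sum_congr
      · ext f
        simp
      · intro f _
        rw [Finset.sdiff_empty]
    | insert i0 S hi0 ih =>
      intro p hp
      set c : Finset (Sym2 V) → ℝ := fun T => ∑ f ∈ (Finset.univ.filter
        (fun f : Fin d × {v : V // v ≠ v0} → Fin d => ∀ i ∈ S, TT par f i = TT par fs i)).filter
          (fun f => TT par f i0 = T), KK par f *
            ∏ j ∈ Finset.univ \ insert i0 S, WW s (fun v => p v j) (TT par f j) with hc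
      have h1 := tree_indep k c (by
          intro T hT'
          rw [hc] at hT'
          obtain ⟨f, hf, h2⟩ := Finset.exists_ne_zero_of_sum_ne_zero hT'
          rw [← (Finset.mem_filter.1 hf).2]
          exact KK_tree hT (left_ne_zero_of_mul h2) i0) (by
          intro x hx
          have h2 := ih (fun v j => if j = i0 then x v else p v j) (by
            intro j
            by_cases hj : j = i0
            · simp only [if_pos hj]
              exact hx
            · simp only [if_neg hj]
              exact hp j)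
          rw [← h2, ← Finset.sum_fiberwise_of_maps_to (t := (EA (Finset.univ : Finset V)).powerset)
            (g := fun f => TT par f i0) (fun f _ => Finset.mem_powerset.2 (TT_subset hT f i0))]
          apply Finset.sum_congr rfl
          intro T _
          rw [hc]
          simp only
          rw [Finset.sum_mul]
          apply Finset.sum_congr rfl
          intro f hf
          have h3 : Finset.univ \ S = insert i0 (Finset.univ \ insert i0 S) := by
            ext i
            simp only [Finset.mem_sdiff, Finset.mem_univ, true_and, Finset.mem_insert, not_or]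
            by_cases hi : i = i0
            · subst hi
              simp [hi0]
            · simp [hi]
          have h4 : i0 ∉ Finset.univ \ insert i0 S := by simp
          rw [h3, Finset.prod_insert h4]
          have h5 : WW s (fun v => if i0 = i0 then x v else p v i0) (TT par f i0) = WW s x T := by
            rw [(Finset.mem_filter.1 hf).2]
            simp only [if_true]
          have h6 : ∏ j ∈ Finset.univ \ insert i0 S,
              WW s (fun v => if j = i0 then x v else p v j) (TT par f j) =
              ∏ j ∈ Finset.univ \ insert i0 S, WW s (fun v => p v j) (TT par f j) := by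
            apply Finset.prod_congr rfl
            intro j hj
            have hji : j ≠ i0 := by
              intro h7
              rw [h7] at hj
              exact h4 hj
            simp only [if_neg hji]
          rw [h5, h6]
          ring) (TT par fs i0)
      rw [hc] at h1
      simp only at h1
      rw [← h1, Finset.filter_filter]
      apply Finset.sum_congr _ (fun _ _ => rfl)
      ext f
      simp only [Finset.mem_filter, Finset.mem_univ, true_and, Finset.mem_insert, forall_eq_or_imp]
      exact and_comm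
  have h1 := key Finset.univ (fun v _ => ((Fintype.equivFin V v : Fin _) : ℕ)) (by
    intro j u v huv
    simp only [Nat.cast_inj] at huv
    exact (Fintype.equivFin V).injective (Fin.ext huv))
  have h2 : Finset.univ.filter (fun f : Fin d × {v : V // v ≠ v0} → Fin d =>
        ∀ i ∈ (Finset.univ : Finset (Fin d)), TT par f i = TT par fs i) = {fs} := by
    ext f
    simp only [Finset.mem_filter, Finset.mem_univ, true_and, Finset.mem_singleton, forall_true_left]
    constructor
    · intro h
      funext r
      have h3 : er par r ∈ TT par f (f r) :=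
        Finset.mem_image.2 ⟨r, Finset.mem_filter.2 ⟨Finset.mem_univ _, rfl⟩, rfl⟩
      rw [h] at h3
      obtain ⟨r', hr', h4⟩ := Finset.mem_image.1 h3
      have h5 := er_inj hT h4
      rw [h5] at hr'
      exact ((Finset.mem_filter.1 hr').2).symm
    · rintro rfl i
      rfl
  rw [h2, Finset.sum_singleton, Finset.sdiff_self, Finset.prod_empty, mul_one] at h1
  exact det_trees_ne_zero hT h1

theorem MG_mulVec (s : ℝ) (par : Fin d → V → V) (p : V → Fin d → ℝ)
    (u : Fin d × {v : V // v ≠ v0} → ℝ) (r : Fin d × {v : V // v ≠ v0}) :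
    (MG s par p).mulVec u r = ∑ j, ph s (p r.2.1 j - p (par r.1 r.2.1) j) *
      (ext0 u j r.2.1 - ext0 u j (par r.1 r.2.1)) := by
  have h1 : (MG s par p).mulVec u r = ∑ c, (∑ j, ph s (p r.2.1 j -
      p (par r.1 r.2.1) j) * NN par r j c) * u c := rfl
  rw [h1]
  simp_rw [Finset.sum_mul]
  rw [Finset.sum_comm]
  apply Finset.sum_congr rfl
  intro j _
  rw [← sum_NN par r j u, Finset.mul_sum]
  exact Finset.sum_congr rfl fun c _ => by ring

/-- A motion which satisfies the row equations is constant when the determinant is not zero. -/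
theorem const_of_detG {s : ℝ} {par : Fin d → V → V} {p : V → Fin d → ℝ}
    (hdet : (MG s par p : Matrix (Fin d × {v : V // v ≠ v0}) _ ℝ).det ≠ 0)
    (m : V → Fin d → ℝ) (hm : ∀ i v, v ≠ v0 →
      ∑ k, ph s (p v k - p (par i v) k) * (m v k - m (par i v) k) = 0) :
    ∀ v w, m v = m w := by
  have key : ∀ v, m v = m v0 := by
    by_contra hc
    push Not at hc
    obtain ⟨v, hv⟩ := hc
    apply hdet
    rw [← Matrix.exists_mulVec_eq_zero_iff]
    refine ⟨fun c => m c.2.1 c.1 - m v0 c.1, ?_, ?_⟩
    · intro h0
      apply hv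
      funext k
      by_cases hv0 : v = v0
      · rw [hv0]
      · have h1 := congrFun h0 (k, ⟨v, hv0⟩)
        simp only [Pi.zero_apply] at h1
        linarith
    · funext r
      rw [MG_mulVec, Pi.zero_apply, ← hm r.1 r.2.1 r.2.2]
      have hext : ∀ k w, ext0 (fun c : Fin d × {v : V // v ≠ v0} => m c.2.1 c.1 - m v0 c.1) k w =
          m w k - m v0 k := by
        intro k w
        unfold ext0
        split_ifs with hw
        · rfl
        · push Not at hw
          rw [hw, sub_self]
      apply Finset.sum_congr rfl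
      intro k _
      rw [hext, hext]
      ring
  intro v w
  rw [key v, key w]

/-- A union of `d` edge-disjoint connected spanning graphs has a placement which is infinitesimally
rigid in `ℓ_q^d` for every odd integer `q ≥ 3`. -/
theorem exists_rigid_odd {V : Type*} [Finite V] [Nonempty V] {d : ℕ} (hd : 1 ≤ d) (k : ℕ)
    (G : SimpleGraph V) (K : Fin d → SimpleGraph V) (hKG : ∀ i, K i ≤ G)
    (hconn : ∀ i, (K i).Connected) (hdisj : ∀ i i', i ≠ i' → Disjoint (K i) (K i')) :
    ∃ p : V → Fin d → ℝ, Rigid (ENNReal.ofReal ((2 * (k + 1) : ℕ) + 1 : ℝ)) G p := by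
  classical
  have := Fintype.ofFinite V
  obtain ⟨v0⟩ := ‹Nonempty V›
  choose par rk hpar using fun i => exists_parent (hconn i) v0
  have hT : Trees v0 par rk := by
    refine ⟨fun i v hv => (hpar i v hv).2, ?_⟩
    intro i v i' w hv hw h
    have h1 := (hpar i v hv).1
    have h2 := (hpar i' w hw).1
    by_cases hi : i = i'
    · subst hi
      refine ⟨rfl, ?_⟩
      rcases Sym2.eq_iff.1 h with ⟨h3, -⟩ | ⟨h3, h4⟩
      · exact h3
      · have h5 := (hpar i v hv).2
        have h6 := (hpar i w hw).2
        rw [← h3] at h6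
        rw [h4] at h5
        exact absurd h5 (not_lt.2 h6.le)
    · exfalso
      have h3 := hdisj i i' hi
      rw [SimpleGraph.disjoint_left] at h3
      apply h3 _ _ h1
      have h4 : s(v, par i v) ∈ (K i').edgeSet := by
        rw [h]
        exact h2
      exact h4
  obtain ⟨p, hp, hdet⟩ := exists_det k hT
  set q : ℝ := ((2 * (k + 1) : ℕ) : ℝ) + 1 with hq
  have hq1 : 1 < q := by
    rw [hq]
    have : (0 : ℝ) < ((2 * (k + 1) : ℕ) : ℝ) := by positivity
    linarith
  have hqs : q - 1 = ((2 * (k + 1) : ℕ) : ℝ) := by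
    rw [hq]
    ring
  have hne : ∀ v w : V, v ≠ w → (p v - p w : Fin d → ℝ) ≠ 0 := by
    intro v w hvw h
    have h1 := congrFun h ⟨0, hd⟩
    rw [Pi.sub_apply, Pi.zero_apply, sub_eq_zero] at h1
    exact hvw (hp ⟨0, hd⟩ h1)
  refine ⟨p, fun u v huv => differentiableAt_lqNorm hq1 (hne u v huv.ne), ?_⟩
  intro m hm
  apply const_of_detG hdet m
  intro i v hv
  have h1 := (hpar i v hv).1
  have h2 := hm v (par i v) (hKG i h1)
  rw [fderiv_lqNorm_eq_zero hq1 (hne _ _ h1.ne), hqs] at h2
  exact h2

end Pool.Agent.W225.RP
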