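import Pool.Agent.W225.RP.Split

/-!
# Linear independence of the tree polynomials modulo the Lie functionals
-/

set_option autoImplicit false
set_option linter.unusedSectionVars false

namespace Pool.Agent.W225.RP

open Finset

variable {V : Type*} [DecidableEq V]

/-- The edges of a rooted tree. -/
def edg (A : Finset V) (v : V) (f : V → V) : Finset (Sym2 V) :=
  (A.erase v).image fun u => s(u, f u)

theorem RT.ne {A : Finset V} {v : V} {f : V → V} (h : RT A v f) {u : V} (hu : u ∈ A)
    (huv : u ≠ v) : f u ≠ u := by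
  obtain ⟨-, -, -, -, rk, hrk⟩ := h
  intro h1
  have := hrk u hu huv
  rw [h1] at this
  exact lt_irrefl _ this

theorem RT.injOn {A : Finset V} {v : V} {f : V → V} (h : RT A v f) :
    Set.InjOn (fun u => s(u, f u)) (A.erase v) := by
  obtain ⟨-, -, -, -, rk, hrk⟩ := h
  intro u hu u' hu' he
  rw [Finset.mem_coe, Finset.mem_erase] at hu hu'
  rcases Sym2.eq_iff.1 he with ⟨h1, -⟩ | ⟨h1, h2⟩
  · exact h1
  · have h3 := hrk u hu.2 hu.1
    have h4 := hrk u' hu'.2 hu'.1
    rw [h2] at h3
    rw [← h1] at h4
    omega

theorem RT.card_edg {A : Finset V} {v : V} {f : V → V} (h : RT A v f) :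
    (edg A v f).card + 1 = A.card := by
  unfold edg
  rw [Finset.card_image_of_injOn h.injOn, Finset.card_erase_of_mem h.1]
  have := Finset.card_pos.2 ⟨v, h.1⟩
  omega

theorem RT.edg_subset {A : Finset V} {v : V} {f : V → V} (h : RT A v f) : edg A v f ⊆ EA A := by
  intro e he
  obtain ⟨u, hu, rfl⟩ := Finset.mem_image.1 he
  rw [Finset.mem_erase] at hu
  rw [mem_EA]
  exact ⟨hu.2, h.2.2.2.1 u hu.2, (h.ne hu.2 hu.1).symm⟩

/-- `T` is the set of edges of a tree on `A`. -/
def Sup (A : Finset V) (T : Finset (Sym2 V)) : Prop :=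
  T ⊆ EA A ∧ T.card + 1 = A.card ∧ ∀ v ∈ A, ∃ f, RT A v f ∧ edg A v f = T

theorem Sup.restrict {A C : Finset V} {S : Finset (Sym2 V)} (hS : Sup C S) (hAC : A ⊆ C)
    (hc : (S ∩ EA A).card + 1 = A.card) : Sup A (S ∩ EA A) := by
  classical
  refine ⟨Finset.inter_subset_right, hc, ?_⟩
  intro v hv
  obtain ⟨f, hf, hfS⟩ := hS.2.2 v (hAC hv)
  have h1 : S ∩ EA A ⊆ ((A.erase v).filter fun u => f u ∈ A).image fun u => s(u, f u) := by
    intro e he
    rw [Finset.mem_inter] at he
    rw [← hfS] at he
    obtain ⟨u, hu, rfl⟩ := Finset.mem_image.1 he.1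
    rw [Finset.mem_erase] at hu
    have h2 := mem_EA.1 he.2
    exact Finset.mem_image.2 ⟨u, Finset.mem_filter.2 ⟨Finset.mem_erase.2 ⟨hu.1, h2.1⟩, h2.2.1⟩, rfl⟩
  have h2 := (Finset.card_le_card h1).trans Finset.card_image_le
  have h3 := Finset.card_erase_of_mem hv
  have h4 : (A.erase v).filter (fun u => f u ∈ A) = A.erase v :=
    Finset.eq_of_subset_of_card_le (Finset.filter_subset _ _) (by omega)
  have h5 : ∀ u ∈ A, u ≠ v → f u ∈ A := by
    intro u hu huv
    have h6 : u ∈ (A.erase v).filter (fun u => f u ∈ A) := by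
      rw [h4]
      exact Finset.mem_erase.2 ⟨huv, hu⟩
    exact (Finset.mem_filter.1 h6).2
  obtain ⟨hvC, hfv, hfC, hfCC, rk, hrk⟩ := hf
  have h6 : RT A v (fun u => if u ∈ A then f u else u) := by
    refine ⟨hv, ?_, ?_, ?_, rk, ?_⟩
    · simp only [if_pos hv]
      exact hfv
    · intro u hu
      simp only [if_neg hu]
    · intro u hu
      simp only [if_pos hu]
      by_cases huv : u = v
      · rw [huv, hfv]
        exact hv
      · exact h5 u hu huv
    · intro u hu huv
      simp only [if_pos hu]
      exact hrk u (hAC hu) huv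
  refine ⟨_, h6, ?_⟩
  apply Finset.eq_of_subset_of_card_le
  · intro e he
    rw [Finset.mem_inter]
    refine ⟨?_, h6.edg_subset he⟩
    obtain ⟨u, hu, rfl⟩ := Finset.mem_image.1 he
    rw [Finset.mem_erase] at hu
    rw [← hfS]
    apply Finset.mem_image.2
    refine ⟨u, Finset.mem_erase.2 ⟨hu.1, hAC hu.2⟩, ?_⟩
    simp only [if_pos hu.2]
  · have := h6.card_edg
    omega

theorem Sup.left {A B : Finset V} (hAB : Disjoint A B) {T T' : Finset (Sym2 V)} (hT : T ∈ tp A)
    (hT' : T' ∈ tp B) {a b : V} (ha : a ∈ A) (hb : b ∈ B) (h : Sup (A ∪ B) (join T T' a b)) :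
    Sup A T := by
  rw [mem_tp] at hT hT'
  have h1 := join_inter_left hAB hT.1 hT'.1 ha hb
  have h2 := h.restrict (A := A) Finset.subset_union_left (by rw [h1]; exact hT.2)
  rwa [h1] at h2

theorem Sup.right {A B : Finset V} (hAB : Disjoint A B) {T T' : Finset (Sym2 V)} (hT : T ∈ tp A)
    (hT' : T' ∈ tp B) {a b : V} (ha : a ∈ A) (hb : b ∈ B) (h : Sup (A ∪ B) (join T T' a b)) :
    Sup B T' := by
  rw [mem_tp] at hT hT'
  have h1 := join_inter_right hAB hT.1 hT'.1 ha hb
  have h2 := h.restrict (A := B) Finset.subset_union_right (by rw [h1]; exact hT'.2)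
  rwa [h1] at h2

/-- The hypotheses on the sign of an ordered pair. -/
structure Sgn (eta : V → V → ℝ) : Prop where
  anti : ∀ u v, u ≠ v → eta v u = -eta u v
  ne : ∀ u v, u ≠ v → eta u v ≠ 0

/-- The sign of a rooted tree. -/
noncomputable def sg (eta : V → V → ℝ) (A : Finset V) (v : V) (f : V → V) : ℝ :=
  ∏ u ∈ A.erase v, eta (f u) u

theorem sg_ne {eta : V → V → ℝ} (he : Sgn eta) {A : Finset V} {v : V} {f : V → V}
    (h : RT A v f) : sg eta A v f ≠ 0 := by
  unfold sg
  rw [Finset.prod_ne_zero_iff]
  intro u hu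
  rw [Finset.mem_erase] at hu
  exact he.ne _ _ (h.ne hu.2 hu.1)

section Local

variable {eta : V → V → ℝ} {A : Finset V} {v w : V} {f : V → V}

/-- The part of the edges above the edge to `w`. -/
noncomputable def TL (A : Finset V) (v w : V) (f : V → V) : Finset (Sym2 V) :=
  ((A \ dsc A f w).erase v).image fun u => s(u, f u)

/-- The part of the edges below `w`. -/
noncomputable def TR (A : Finset V) (w : V) (f : V → V) : Finset (Sym2 V) :=
  ((dsc A f w).erase w).image fun u => s(u, f u)

theorem RT.v_notMem (h : RT A v f) (hwv : w ≠ v) : v ∉ dsc A f w := by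
  intro h1
  exact (mem_dsc.1 h1).2.ne_of_fix h.2.1 hwv.symm rfl

theorem w_mem_dsc (hw : w ∈ A) : w ∈ dsc A f w := mem_dsc.2 ⟨hw, Desc.base⟩

theorem RT.mem_low (h : RT A v f) {u : V} (hu : u ∈ (dsc A f w).erase w) : f u ∈ dsc A f w := by
  rw [Finset.mem_erase, mem_dsc] at hu
  exact mem_dsc.2 ⟨h.2.2.2.1 u hu.2.1, (desc_iff hu.1).1 hu.2.2⟩

theorem RT.mem_high (h : RT A v f) {u : V} (hu : u ∈ A \ dsc A f w) : f u ∈ A \ dsc A f w := by
  rw [Finset.mem_sdiff] at hu ⊢
  refine ⟨h.2.2.2.1 u hu.1, fun h1 => hu.2 ?_⟩
  rw [mem_dsc] at h1 ⊢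
  refine ⟨hu.1, ?_⟩
  by_cases huw : u = w
  · rw [huw]
    exact Desc.base
  · exact Desc.step huw h1.2

theorem RT.erase_eq (h : RT A v f) (hw : w ∈ A) (hwv : w ≠ v) :
    A.erase v = insert w (((A \ dsc A f w).erase v) ∪ ((dsc A f w).erase w)) := by
  ext u
  simp only [Finset.mem_erase, Finset.mem_insert, Finset.mem_union, Finset.mem_sdiff]
  have h1 := h.v_notMem hwv
  constructor
  · rintro ⟨h2, h3⟩
    by_cases huw : u = w
    · exact Or.inl huw
    · by_cases hd : u ∈ dsc A f w
      · exact Or.inr (Or.inr ⟨huw, hd⟩)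
      · exact Or.inr (Or.inl ⟨h2, h3, hd⟩)
  · rintro (h2 | ⟨h2, h3, -⟩ | ⟨h2, h3⟩)
    · rw [h2]
      exact ⟨hwv, hw⟩
    · exact ⟨h2, h3⟩
    · refine ⟨?_, (mem_dsc.1 h3).1⟩
      intro h4
      rw [h4] at h3
      exact h1 h3

theorem RT.erase_eq' (h : RT A v f) (hw : w ∈ A) (hwv : w ≠ v) :
    A.erase w = insert v (((A \ dsc A f w).erase v) ∪ ((dsc A f w).erase w)) := by
  ext u
  simp only [Finset.mem_erase, Finset.mem_insert, Finset.mem_union, Finset.mem_sdiff]
  constructor
  · rintro ⟨h2, h3⟩
    by_cases huv : u = v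
    · exact Or.inl huv
    · by_cases hd : u ∈ dsc A f w
      · exact Or.inr (Or.inr ⟨h2, hd⟩)
      · exact Or.inr (Or.inl ⟨huv, h3, hd⟩)
  · rintro (h2 | ⟨h2, h3, h4⟩ | ⟨h2, h3⟩)
    · rw [h2]
      exact ⟨hwv.symm, h.1⟩
    · refine ⟨?_, h3⟩
      intro h5
      rw [h5] at h4
      exact h4 (w_mem_dsc hw)
    · exact ⟨h2, (mem_dsc.1 h3).1⟩

theorem not_mem_parts (h : RT A v f) (hw : w ∈ A) (hwv : w ≠ v) :
    w ∉ ((A \ dsc A f w).erase v) ∪ ((dsc A f w).erase w) ∧
      v ∉ ((A \ dsc A f w).erase v) ∪ ((dsc A f w).erase w) := by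
  constructor
  · simp only [Finset.mem_union, Finset.mem_erase, Finset.mem_sdiff, not_or]
    exact ⟨fun h1 => h1.2.2 (w_mem_dsc hw), fun h1 => h1.1 rfl⟩
  · simp only [Finset.mem_union, Finset.mem_erase, Finset.mem_sdiff, not_or]
    exact ⟨fun h1 => h1.1 rfl, fun h1 => h.v_notMem hwv h1.2⟩

/-- The general description of the edges of the modified trees. -/
theorem edg_general {g : V → V} {r r' p : V}
    (hr : A.erase r = insert r' (((A \ dsc A f w).erase v) ∪ ((dsc A f w).erase w)))
    (hg : ∀ u ∈ ((A \ dsc A f w).erase v) ∪ ((dsc A f w).erase w), g u = f u) (hp : g r' = p) :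
    edg A r g = insert s(r', p) (TL A v w f ∪ TR A w f) := by
  unfold edg TL TR
  rw [hr, Finset.image_insert, Finset.image_union, hp]
  congr 1
  congr 1
  · apply Finset.image_congr
    intro u hu
    simp only
    rw [hg u (Finset.mem_union_left _ hu)]
  · apply Finset.image_congr
    intro u hu
    simp only
    rw [hg u (Finset.mem_union_right _ hu)]

theorem sg_general {g : V → V} {r r' p : V}
    (hr : A.erase r = insert r' (((A \ dsc A f w).erase v) ∪ ((dsc A f w).erase w)))
    (hr' : r' ∉ ((A \ dsc A f w).erase v) ∪ ((dsc A f w).erase w))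
    (hg : ∀ u ∈ ((A \ dsc A f w).erase v) ∪ ((dsc A f w).erase w), g u = f u) (hp : g r' = p) :
    sg eta A r g = eta p r' *
      ∏ u ∈ ((A \ dsc A f w).erase v) ∪ ((dsc A f w).erase w), eta (f u) u := by
  unfold sg
  rw [hr, Finset.prod_insert hr', hp]
  congr 1
  apply Finset.prod_congr rfl
  intro u hu
  rw [hg u hu]

theorem TL_mem (h : RT A v f) (hwv : w ≠ v) : TL A v w f ∈ tp (A \ dsc A f w) := by
  rw [mem_tp]
  have hv : v ∈ A \ dsc A f w := Finset.mem_sdiff.2 ⟨h.1, h.v_notMem hwv⟩
  constructor
  · intro e he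
    obtain ⟨u, hu, rfl⟩ := Finset.mem_image.1 he
    rw [Finset.mem_erase] at hu
    rw [mem_EA]
    exact ⟨hu.2, h.mem_high hu.2, (h.ne (Finset.mem_sdiff.1 hu.2).1 hu.1).symm⟩
  · unfold TL
    rw [Finset.card_image_of_injOn, Finset.card_erase_of_mem hv]
    · have := Finset.card_pos.2 ⟨v, hv⟩
      omega
    · apply h.injOn.mono
      intro u hu
      rw [Finset.mem_coe, Finset.mem_erase] at hu ⊢
      exact ⟨hu.1, (Finset.mem_sdiff.1 hu.2).1⟩

theorem TR_mem (h : RT A v f) (hw : w ∈ A) (hwv : w ≠ v) : TR A w f ∈ tp (dsc A f w) := by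
  rw [mem_tp]
  have hne : ∀ u ∈ dsc A f w, u ≠ v := by
    intro u hu h1
    rw [h1] at hu
    exact h.v_notMem hwv hu
  constructor
  · intro e he
    obtain ⟨u, hu, rfl⟩ := Finset.mem_image.1 he
    rw [mem_EA]
    have hu' := Finset.mem_erase.1 hu
    exact ⟨hu'.2, h.mem_low hu, (h.ne (mem_dsc.1 hu'.2).1 (hne u hu'.2)).symm⟩
  · unfold TR
    rw [Finset.card_image_of_injOn, Finset.card_erase_of_mem (w_mem_dsc hw)]
    · have := Finset.card_pos.2 ⟨w, w_mem_dsc (f := f) hw⟩
      omega
    · apply h.injOn.mono
      intro u hu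
      rw [Finset.mem_coe, Finset.mem_erase] at hu ⊢
      exact ⟨hne u hu.2, (mem_dsc.1 hu.2).1⟩

theorem edg_self (h : RT A v f) (hw : w ∈ A) (hwv : w ≠ v) (hfw : f w = v) :
    edg A v f = join (TL A v w f) (TR A w f) v w := by
  rw [edg_general (h.erase_eq hw hwv) (fun _ _ => rfl) hfw, Sym2.eq_swap]
  rfl

/-- The local identity. -/
theorem local_eq (he : Sgn eta) (k : ℕ) (c : Finset (Sym2 V) → V → ℝ) (h : RT A v f)
    (hw : w ∈ A) (hwv : w ≠ v) (hfw : f w = v)
    (hCC : CC eta k (A \ dsc A f w) (dsc A f w) c (fun _ => 0) (TL A v w f) (TR A w f) v w = 0) :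
    (∑ a ∈ A \ dsc A f w, c (edg A v (Function.update f w a)) v *
        sg eta A v (Function.update f w a)) +
      (∑ b ∈ dsc A f w, c (edg A w (Function.update (Function.update f v b) w w)) w *
        sg eta A w (Function.update (Function.update f v b) w w)) =
      (2 * k + 1 : ℕ) * (sg eta A v f * ∑ u ∈ dsc A f w, c (edg A v f) u) := by
  set Pr : ℝ := ∏ u ∈ ((A \ dsc A f w).erase v) ∪ ((dsc A f w).erase w), eta (f u) u with hPr
  obtain ⟨hnw, hnv⟩ := not_mem_parts h hw hwv
  have g1 : ∀ (a : V), ∀ u ∈ ((A \ dsc A f w).erase v) ∪ ((dsc A f w).erase w),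
      Function.update f w a u = f u := by
    intro a u hu
    apply Function.update_of_ne
    intro h1
    rw [h1] at hu
    exact hnw hu
  have g2 : ∀ (b : V), ∀ u ∈ ((A \ dsc A f w).erase v) ∪ ((dsc A f w).erase w),
      Function.update (Function.update f v b) w w u = f u := by
    intro b u hu
    have hu1 : u ≠ w := by
      intro h1
      rw [h1] at hu
      exact hnw hu
    have hu2 : u ≠ v := by
      intro h1
      rw [h1] at hu
      exact hnv hu
    rw [Function.update_of_ne hu1, Function.update_of_ne hu2]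
  have e1 : ∀ a, edg A v (Function.update f w a) = join (TL A v w f) (TR A w f) a w := by
    intro a
    rw [edg_general (h.erase_eq hw hwv) (g1 a) (Function.update_self ..), Sym2.eq_swap]
    rfl
  have e2 : ∀ b, edg A w (Function.update (Function.update f v b) w w) =
      join (TL A v w f) (TR A w f) v b := by
    intro b
    rw [edg_general (h.erase_eq' hw hwv) (g2 b)
      (by rw [Function.update_of_ne hwv.symm, Function.update_self])]
    rfl
  have s1 : ∀ a, sg eta A v (Function.update f w a) = eta a w * Pr := fun a =>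
    sg_general (h.erase_eq hw hwv) hnw (g1 a) (Function.update_self ..)
  have s2 : ∀ b, sg eta A w (Function.update (Function.update f v b) w w) = eta b v * Pr :=
    fun b => sg_general (h.erase_eq' hw hwv) hnv (g2 b)
      (by rw [Function.update_of_ne hwv.symm, Function.update_self])
  have s3 : sg eta A v f = eta v w * Pr :=
    sg_general (h.erase_eq hw hwv) hnw (fun _ _ => rfl) hfw
  have t1 : ∑ a ∈ A \ dsc A f w, c (edg A v (Function.update f w a)) v *
        sg eta A v (Function.update f w a) =
      Pr * ∑ a ∈ A \ dsc A f w, eta a w * c (join (TL A v w f) (TR A w f) a w) v := by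
    rw [Finset.mul_sum]
    apply Finset.sum_congr rfl
    intro a _
    rw [e1, s1]
    ring
  have t2 : ∑ b ∈ dsc A f w, c (edg A w (Function.update (Function.update f v b) w w)) w *
        sg eta A w (Function.update (Function.update f v b) w w) =
      -(Pr * ∑ b ∈ dsc A f w, eta v b * c (join (TL A v w f) (TR A w f) v b) w) := by
    rw [Finset.mul_sum, ← Finset.sum_neg_distrib]
    apply Finset.sum_congr rfl
    intro b hb
    have hvb : v ≠ b := by
      intro h1
      rw [← h1] at hb
      exact h.v_notMem hwv hb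
    rw [e2, s2, he.anti v b hvb]
    ring
  rw [t1, t2, s3, edg_self h hw hwv hfw]
  unfold CC at hCC
  rw [add_zero] at hCC
  have := congrArg (fun z => Pr * z) hCC
  simp only [mul_zero] at this
  linarith

end Local

/-- Independence for the vertex set `A`. -/
def IndP (eta : V → V → ℝ) (k : ℕ) (A : Finset V) : Prop :=
  ∀ c : Finset (Sym2 V) → V → ℝ, (∀ T u, c T u ≠ 0 → Sup A T) →
    (∀ D : BT V, Good D A → ∀ y : V → ℝ, ∑ T ∈ (EA A).powerset,
      kap eta D T * ((∑ u ∈ A, c T u * y u) * PP (k + 1) y T) = 0) →
    ∀ T, ∀ u ∈ A, c T u = 0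

/-- The relation gives the vanishing of the coefficients of the splitting lemma. -/
theorem CC_zero {eta : V → V → ℝ} (he : Sgn eta) (k : ℕ) {A B : Finset V} (hAB : Disjoint A B)
    (hA : IndP eta k A) (hB : IndP eta k B) (c : Finset (Sym2 V) → V → ℝ)
    (d : Finset (Sym2 V) → ℝ) (hc : ∀ T u, c T u ≠ 0 → Sup (A ∪ B) T)
    (hd : ∀ T, d T ≠ 0 → Sup (A ∪ B) T)
    (hrel : ∀ D : BT V, Good D (A ∪ B) → ∀ y : V → ℝ, ∑ T ∈ (EA (A ∪ B)).powerset, kap eta D T *
      (((∑ u ∈ A ∪ B, c T u * y u) + d T) * PP (k + 1) y T) = 0)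
    {T T' : Finset (Sym2 V)} (hT : T ∈ tp A) (hT' : T' ∈ tp B) {x w : V} (hx : x ∈ A)
    (hw : w ∈ B) : CC eta k A B c d T T' x w = 0 := by
  classical
  have hzero : ∀ T, T.card + 1 ≠ (A ∪ B).card → d T = 0 ∧ ∀ u, c T u = 0 := by
    intro T hT
    refine ⟨?_, fun u => ?_⟩
    · by_contra h
      exact hT (hd T h).2.1
    · by_contra h
      exact hT (hc T u h).2.1
  -- supports
  have hsupp : ∀ T ∈ tp A, ∀ T' ∈ tp B, ∀ x ∈ A, ∀ w ∈ B, CC eta k A B c d T T' x w ≠ 0 →
      Sup A T ∧ Sup B T' := by
    intro T hT T' hT' x hx w hw hne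
    have h1 : ∃ a ∈ A, ∃ b ∈ B, Sup (A ∪ B) (join T T' a b) := by
      by_contra hcon
      push Not at hcon
      apply hne
      unfold CC
      have c0 : ∀ a ∈ A, ∀ b ∈ B, ∀ u, c (join T T' a b) u = 0 := by
        intro a ha b hb u
        by_contra h
        exact hcon a ha b hb (hc _ _ h)
      have d0 : ∀ a ∈ A, ∀ b ∈ B, d (join T T' a b) = 0 := by
        intro a ha b hb
        by_contra h
        exact hcon a ha b hb (hd _ h)
      rw [Finset.sum_eq_zero (fun a ha => by rw [c0 a ha w hw, mul_zero]),
        Finset.sum_eq_zero (fun b hb => by rw [c0 x hx b hb, mul_zero]),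
        Finset.sum_eq_zero (fun u _ => c0 x hx w hw u), d0 x hx w hw]
      ring
    obtain ⟨a, ha, b, hb, h2⟩ := h1
    exact ⟨h2.left hAB hT hT' ha hb, h2.right hAB hT hT' ha hb⟩
  have hmain : ∀ (D D' : BT V), Good D A → Good D' B → ∀ y : V → ℝ,
      ∑ T ∈ tp A, kap eta D T * PP (k + 1) y T * ∑ T' ∈ tp B, kap eta D' T' * PP (k + 1) y T' *
        ∑ x ∈ A, ∑ w ∈ B, y x * y w * CC eta k A B c d T T' x w = 0 := by
    intro D D' hD hD' y
    exact split_main eta he.anti k hAB hD hD' c d hzero (hrel _ (hD.node hD' hAB)) y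
  -- first use of independence
  have h1 : ∀ (D' : BT V), Good D' B → ∀ z : V → ℝ, ∀ T ∈ tp A, ∀ x ∈ A,
      ∑ T' ∈ tp B, kap eta D' T' * PP (k + 1) z T' *
        ∑ w ∈ B, z w * CC eta k A B c d T T' x w = 0 := by
    intro D' hD' z
    have h2 := hA (fun T x => if T ∈ tp A ∧ x ∈ A then ∑ T' ∈ tp B, kap eta D' T' *
      PP (k + 1) z T' * ∑ w ∈ B, z w * CC eta k A B c d T T' x w else 0) (by
        intro T x hne
        have hTx : T ∈ tp A ∧ x ∈ A := by
          by_contra h
          rw [if_neg h] at hne
          exact hne rfl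
        rw [if_pos hTx] at hne
        obtain ⟨T', hT', h3⟩ := Finset.exists_ne_zero_of_sum_ne_zero hne
        obtain ⟨w, hw, h4⟩ := Finset.exists_ne_zero_of_sum_ne_zero (right_ne_zero_of_mul h3)
        exact (hsupp T hTx.1 T' hT' x hTx.2 w hw (right_ne_zero_of_mul h4)).1) (by
        intro D hD y
        have h3 := hmain D D' hD hD' (fun v => if v ∈ A then y v else z v)
        have hyA : ∀ u ∈ A, (fun v => if v ∈ A then y v else z v) u = y u := by
          intro u hu
          simp only [if_pos hu]
        have hyB : ∀ u ∈ B, (fun v => if v ∈ A then y v else z v) u = z u := by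
          intro u hu
          simp only [if_neg (Finset.disjoint_right.1 hAB hu)]
        have h4 : ∑ T ∈ (EA A).powerset, kap eta D T * ((∑ u ∈ A, (if T ∈ tp A ∧ u ∈ A then
            ∑ T' ∈ tp B, kap eta D' T' * PP (k + 1) z T' *
              ∑ w ∈ B, z w * CC eta k A B c d T T' u w else 0) * y u) * PP (k + 1) y T) =
            ∑ T ∈ tp A, kap eta D T * ((∑ u ∈ A, (if T ∈ tp A ∧ u ∈ A then
            ∑ T' ∈ tp B, kap eta D' T' * PP (k + 1) z T' *
              ∑ w ∈ B, z w * CC eta k A B c d T T' u w else 0) * y u) * PP (k + 1) y T) := by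
          symm
          apply Finset.sum_subset
          · exact Finset.filter_subset _ _
          · intro T _ hT
            rw [Finset.sum_eq_zero (fun u _ => by rw [if_neg (fun h => hT h.1), zero_mul]),
              zero_mul, mul_zero]
        rw [h4]
        refine Eq.trans ?_ h3
        apply Finset.sum_congr rfl
        intro T hT
        have hTs := (mem_tp.1 hT).1
        rw [PP_congr (k + 1) hyA hTs]
        have h5 : ∑ u ∈ A, (if T ∈ tp A ∧ u ∈ A then
            ∑ T' ∈ tp B, kap eta D' T' * PP (k + 1) z T' *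
              ∑ w ∈ B, z w * CC eta k A B c d T T' u w else 0) * y u =
            ∑ T' ∈ tp B, kap eta D' T' * PP (k + 1) (fun v => if v ∈ A then y v else z v) T' *
              ∑ x ∈ A, ∑ w ∈ B, (fun v => if v ∈ A then y v else z v) x *
                (fun v => if v ∈ A then y v else z v) w * CC eta k A B c d T T' x w := by
          have h6 : ∀ T' ∈ tp B, kap eta D' T' * PP (k + 1)
              (fun v => if v ∈ A then y v else z v) T' *
              ∑ x ∈ A, ∑ w ∈ B, (fun v => if v ∈ A then y v else z v) x *
                (fun v => if v ∈ A then y v else z v) w * CC eta k A B c d T T' x w =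
              ∑ x ∈ A, kap eta D' T' * PP (k + 1) z T' *
                (∑ w ∈ B, z w * CC eta k A B c d T T' x w) * y x := by
            intro T' hT'
            rw [PP_congr (k + 1) hyB (mem_tp.1 hT').1, Finset.mul_sum]
            apply Finset.sum_congr rfl
            intro x hx
            rw [mul_assoc (kap eta D' T' * PP (k + 1) z T'), Finset.sum_mul]
            congr 1
            apply Finset.sum_congr rfl
            intro w hw
            simp only [if_pos hx, if_neg (Finset.disjoint_right.1 hAB hw)]
            ring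
          rw [Finset.sum_congr rfl h6, Finset.sum_comm]
          apply Finset.sum_congr rfl
          intro x hx
          rw [if_pos ⟨hT, hx⟩, Finset.sum_mul]
        rw [h5]
        ring)
    intro T hT x hx
    have h3 := h2 T x hx
    rwa [if_pos ⟨hT, hx⟩] at h3
  -- second use of independence
  have h2 := hB (fun T' w => if T' ∈ tp B ∧ w ∈ B then CC eta k A B c d T T' x w else 0) (by
      intro T' w hne
      have hTx : T' ∈ tp B ∧ w ∈ B := by
        by_contra h
        rw [if_neg h] at hne
        exact hne rfl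
      rw [if_pos hTx] at hne
      exact (hsupp T hT T' hTx.1 x hx w hTx.2 hne).2) (by
      intro D' hD' z
      refine Eq.trans ?_ (h1 D' hD' z T hT x hx)
      have h4 : ∑ T' ∈ (EA B).powerset, kap eta D' T' * ((∑ u ∈ B,
          (if T' ∈ tp B ∧ u ∈ B then CC eta k A B c d T T' x u else 0) * z u) *
            PP (k + 1) z T') = ∑ T' ∈ tp B, kap eta D' T' * ((∑ u ∈ B,
          (if T' ∈ tp B ∧ u ∈ B then CC eta k A B c d T T' x u else 0) * z u) *
            PP (k + 1) z T') := by
        symm
        apply Finset.sum_subset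
        · exact Finset.filter_subset _ _
        · intro T' _ hT'
          rw [Finset.sum_eq_zero (fun u _ => by rw [if_neg (fun h => hT' h.1), zero_mul]),
            zero_mul, mul_zero]
      rw [h4]
      apply Finset.sum_congr rfl
      intro T' hT'
      have h5 : ∑ u ∈ B, (if T' ∈ tp B ∧ u ∈ B then CC eta k A B c d T T' x u else 0) * z u =
          ∑ w ∈ B, z w * CC eta k A B c d T T' x w := by
        apply Finset.sum_congr rfl
        intro w hw
        rw [if_pos ⟨hT', hw⟩, mul_comm]
      rw [h5]
      ring)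
  have h3 := h2 T' w hw
  rwa [if_pos ⟨hT', hw⟩] at h3

theorem kap_leaf' (eta : V → V → ℝ) (v : V) (H : Finset (Sym2 V)) :
    kap eta (.leaf v) H = 1 := kap_leaf eta v H

/-- **Independence of the tree polynomials.** -/
theorem indep [Fintype V] {eta : V → V → ℝ} (he : Sgn eta) (k : ℕ) :
    ∀ A : Finset V, IndP eta k A := by
  classical
  have key : ∀ n : ℕ, ∀ A : Finset V, A.card = n → IndP eta k A := by
    intro n
    induction n using Nat.strong_induction_on with
    | _ n ih =>
      intro A hAn c hc hrel
      rcases Nat.lt_or_ge A.card 2 with hcard | hcard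
      · -- at most one vertex
        intro T u hu
        by_contra hne
        have h1 : A = {u} := by
          have : A.card = 1 := by
            have := Finset.card_pos.2 ⟨u, hu⟩
            omega
          obtain ⟨z, hz⟩ := Finset.card_eq_one.1 this
          rw [hz, Finset.mem_singleton] at hu
          rw [hz, hu]
        have h2 : EA A = ∅ := by
          rw [h1]
          apply Finset.eq_empty_of_forall_notMem
          intro e he
          induction e with
          | h x y =>
            rw [mem_EA, Finset.mem_singleton, Finset.mem_singleton] at he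
            exact he.2.2 (he.1.trans he.2.1.symm)
        have h3 : T = ∅ := by
          have := (hc T u hne).1
          rw [h2] at this
          exact Finset.subset_empty.1 this
        have h4 := hrel (.leaf u) (by
          constructor
          · exact List.nodup_singleton u
          · rw [h1]
            simp [BT.letters]) (fun _ => 1)
        rw [h2, Finset.powerset_empty, Finset.sum_singleton, kap_leaf', h1,
          Finset.sum_singleton] at h4
        simp only [PP, Finset.prod_empty, mul_one, one_mul] at h4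
        rw [h3] at hne
        exact hne h4
      · -- splitting
        have hsplit : ∀ (c : Finset (Sym2 V) → V → ℝ) (d : Finset (Sym2 V) → ℝ),
            (∀ T u, c T u ≠ 0 → Sup A T) → (∀ T, d T ≠ 0 → Sup A T) →
            (∀ D : BT V, Good D A → ∀ y : V → ℝ, ∑ T ∈ (EA A).powerset, kap eta D T *
              (((∑ u ∈ A, c T u * y u) + d T) * PP (k + 1) y T) = 0) →
            ∀ v f w, RT A v f → w ∈ A → w ≠ v →
              CC eta k (A \ dsc A f w) (dsc A f w) c d (TL A v w f) (TR A w f) v w = 0 := by
          intro c d hc hd hrel v f w hf hw hwv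
          have hdis : Disjoint (A \ dsc A f w) (dsc A f w) := Finset.sdiff_disjoint
          have hsub : dsc A f w ⊆ A := Finset.filter_subset _ _
          have hun : (A \ dsc A f w) ∪ dsc A f w = A := Finset.sdiff_union_of_subset hsub
          have hv : v ∈ A \ dsc A f w := Finset.mem_sdiff.2 ⟨hf.1, hf.v_notMem hwv⟩
          have hw' : w ∈ dsc A f w := w_mem_dsc hw
          have c1 : (A \ dsc A f w).card + (dsc A f w).card = A.card := by
            rw [← Finset.card_union_of_disjoint hdis, hun]
          have c2 := Finset.card_pos.2 ⟨v, hv⟩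
          have c3 := Finset.card_pos.2 ⟨w, hw'⟩
          apply CC_zero he k hdis (ih _ (by omega) _ rfl) (ih _ (by omega) _ rfl) c d
            (by rw [hun]; exact hc) (by rw [hun]; exact hd) (by rw [hun]; exact hrel)
            (TL_mem hf hwv) (TR_mem hf hw hwv) hv hw'
        -- the sum of the coefficients
        have hsum : ∀ v f, RT A v f → ∑ u ∈ A, c (edg A v f) u = 0 := by
          intro v f hf
          obtain ⟨u, hu, huv⟩ : ∃ u ∈ A, u ≠ v := by
            obtain ⟨a, ha, b, hb, hab⟩ := Finset.one_lt_card.1 (show 1 < A.card by omega)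
            by_cases h : a = v
            · exact ⟨b, hb, fun h2 => hab (h.trans h2.symm)⟩
            · exact ⟨a, ha, h⟩
          obtain ⟨w, hw, hwv, hfw, -⟩ := hf.exists_child hu huv
          have h1 := hsplit (fun _ _ => 0) (fun T => ∑ u ∈ A, c T u) (by
              intro T u h
              exact absurd rfl h) (by
              intro T h
              obtain ⟨u, _, h2⟩ := Finset.exists_ne_zero_of_sum_ne_zero h
              exact hc T u h2) (by
              intro D hD y
              have h2 := hrel D hD y
              have h3 := hrel D hD (fun v => y v + 1)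
              refine Eq.trans ?_ (sub_eq_zero.2 (h3.trans h2.symm))
              rw [← Finset.sum_sub_distrib]
              apply Finset.sum_congr rfl
              intro T hT
              rw [PP_scale (k + 1) (α := 1) (s := 1) (y := y) (y' := fun v => y v + 1)
                (fun u _ => by rw [one_mul]) (Finset.mem_powerset.1 hT)]
              have h4 : ∑ u ∈ A, c T u * (y u + 1) = ∑ u ∈ A, c T u * y u + ∑ u ∈ A, c T u := by
                rw [← Finset.sum_add_distrib]
                apply Finset.sum_congr rfl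
                intro u _
                ring
              rw [h4]
              simp only [one_pow, one_mul, zero_mul, Finset.sum_const_zero, zero_add]
              ring) v f w hf hw hwv
          unfold CC at h1
          simp only [mul_zero, Finset.sum_const_zero, zero_add, sub_zero, zero_sub,
            neg_eq_zero] at h1
          rw [← edg_self hf hw hwv hfw] at h1
          rcases mul_eq_zero.1 h1 with h2 | h2
          · exfalso
            have : ((2 * k + 1 : ℕ) : ℝ) ≠ 0 := by positivity
            exact this h2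
          · rcases mul_eq_zero.1 h2 with h3 | h3
            · exact absurd h3 (he.ne v w hwv.symm)
            · exact h3
        -- the spectral lemma
        have hF := spectral A (fun v f => c (edg A v f) v * sg eta A v f)
          (lam := ((2 * k + 1 : ℕ) : ℝ)) (by positivity) (by
          intro v f hf
          have h1 : ∀ w ∈ (A.erase v).filter (fun w => f w = v),
              (∑ a ∈ A \ dsc A f w, c (edg A v (Function.update f w a)) v *
                sg eta A v (Function.update f w a)) +
              (∑ b ∈ dsc A f w, c (edg A w (Function.update (Function.update f v b) w w)) w *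
                sg eta A w (Function.update (Function.update f v b) w w)) =
              (2 * k + 1 : ℕ) * (sg eta A v f * ∑ u ∈ dsc A f w, c (edg A v f) u) := by
            intro w hw
            rw [Finset.mem_filter, Finset.mem_erase] at hw
            obtain ⟨⟨hwv, hwA⟩, hfw⟩ := hw
            apply local_eq he k c hf hwA hwv hfw
            exact hsplit c (fun _ => 0) hc (fun T h => absurd rfl h)
              (by simpa only [add_zero] using hrel) v f w hf hwA hwv
          rw [Finset.sum_congr rfl h1, ← Finset.mul_sum, ← Finset.mul_sum]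
          have h2 : ∑ w ∈ (A.erase v).filter (fun w => f w = v),
              ∑ u ∈ dsc A f w, c (edg A v f) u = ∑ u ∈ A.erase v, c (edg A v f) u := by
            rw [← Finset.sum_biUnion]
            · apply Finset.sum_congr _ (fun _ _ => rfl)
              ext u
              simp only [Finset.mem_biUnion, Finset.mem_filter, Finset.mem_erase, mem_dsc]
              constructor
              · rintro ⟨w, ⟨⟨hwv, hwA⟩, hfw⟩, huA, hd⟩
                exact ⟨hd.ne_of_fix hf.2.1 hwv.symm, huA⟩
              · rintro ⟨huv, huA⟩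
                obtain ⟨w, hwA, hwv, hfw, hd⟩ := hf.exists_child huA huv
                exact ⟨w, ⟨⟨hwv, hwA⟩, hfw⟩, huA, hd⟩
            · intro w hw w' hw' hne
              rw [Finset.mem_coe, Finset.mem_filter, Finset.mem_erase] at hw hw'
              rw [Function.onFun, Finset.disjoint_left]
              intro u hu hu'
              exact hne (child_unique hf.2.1 hw.1.1 hw'.1.1 hw.2 hw'.2 (mem_dsc.1 hu).2
                (mem_dsc.1 hu').2)
          have h3 := hsum v f hf
          rw [← Finset.add_sum_erase A _ hf.1] at h3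
          rw [h2]
          have h4 : ∑ u ∈ A.erase v, c (edg A v f) u = -c (edg A v f) v := by linarith
          rw [h4]
          ring)
        intro T u hu
        by_contra hne
        obtain ⟨f, hf, hfT⟩ := (hc T u hne).2.2 u hu
        have h1 := hF u f hf
        rw [hfT] at h1
        rcases mul_eq_zero.1 h1 with h2 | h2
        · exact hne h2
        · exact sg_ne he hf h2
  intro A
  exact key _ A rfl

end Pool.Agent.W225.RP
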