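import Pool.Agent.W225.RP.Rooted

/-!
# Lie functionals on sets of edges
-/

set_option autoImplicit false
set_option linter.unusedSectionVars false

namespace Pool.Agent.W225.RP

open Finset

variable {V : Type*} [DecidableEq V]

/-- Binary trees with labelled leaves. -/
inductive BT (V : Type*)
  | leaf : V → BT V
  | node : BT V → BT V → BT V

/-- The letters of a binary tree. -/
def BT.letters : BT V → List V
  | .leaf v => [v]
  | .node l r => l.letters ++ r.letters

/-- The evaluation of a function of words at the iterated commutator of a binary tree. -/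
def BT.ev : BT V → (List V → ℝ) → ℝ
  | .leaf v, f => f [v]
  | .node l r, f => l.ev fun w => r.ev fun w' => f (w ++ w') - f (w' ++ w)

theorem BT.ev_congr (D : BT V) : ∀ {f g : List V → ℝ}, (∀ w, w.Perm D.letters → f w = g w) →
    D.ev f = D.ev g := by
  induction D with
  | leaf v =>
    intro f g h
    exact h [v] (List.Perm.refl _)
  | node l r ihl ihr =>
    intro f g h
    show l.ev _ = l.ev _
    apply ihl
    intro w hw
    apply ihr
    intro w' hw'
    rw [h (w ++ w') (hw.append hw'), h (w' ++ w) ((List.perm_append_comm).trans (hw.append hw'))]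

theorem BT.ev_sum (D : BT V) {ι : Type*} (s : Finset ι) (g : ι → ℝ) :
    ∀ (f : ι → List V → ℝ), D.ev (fun w => ∑ i ∈ s, g i * f i w) = ∑ i ∈ s, g i * D.ev (f i) := by
  induction D with
  | leaf v =>
    intro f
    rfl
  | node l r ihl ihr =>
    intro f
    show l.ev (fun w => r.ev fun w' => ∑ i ∈ s, g i * f i (w ++ w') - ∑ i ∈ s, g i * f i (w' ++ w)) =
      ∑ i ∈ s, g i * l.ev (fun w => r.ev fun w' => f i (w ++ w') - f i (w' ++ w))
    rw [← ihl]
    congr 1
    funext w
    rw [← ihr]
    congr 1
    funext w'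
    rw [← Finset.sum_sub_distrib]
    apply Finset.sum_congr rfl
    intro i _
    ring

theorem BT.ev_mul (D : BT V) (c : ℝ) (f : List V → ℝ) :
    D.ev (fun w => c * f w) = c * D.ev f := by
  have h := D.ev_sum ({()} : Finset Unit) (fun _ => c) (fun _ => f)
  simpa using h

theorem BT.ev_zero (D : BT V) {f : List V → ℝ} (h : ∀ w, w.Perm D.letters → f w = 0) :
    D.ev f = 0 := by
  rw [D.ev_congr (g := fun w => 0 * (0 : ℝ)) (by intro w hw; rw [h w hw, mul_zero])]
  rw [D.ev_mul 0 (fun _ => 0), zero_mul]

variable (eta : V → V → ℝ)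

/-- The factor of a pair of letters. -/
noncomputable def cc (H : Finset (Sym2 V)) (a b : V) : ℝ := if s(a, b) ∈ H then eta a b else 1

/-- The factor of two words. -/
noncomputable def cr (H : Finset (Sym2 V)) (w w' : List V) : ℝ :=
  (w.map fun a => (w'.map fun b => cc eta H a b).prod).prod

/-- The sign of a set of edges in the order of a word. -/
noncomputable def psi (H : Finset (Sym2 V)) : List V → ℝ
  | [] => 1
  | a :: w => psi H w * (w.map fun b => cc eta H a b).prod

theorem psi_cons (H : Finset (Sym2 V)) (a : V) (w : List V) :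
    psi eta H (a :: w) = psi eta H w * (w.map fun b => cc eta H a b).prod := rfl

theorem psi_append (H : Finset (Sym2 V)) (w w' : List V) :
    psi eta H (w ++ w') = psi eta H w * psi eta H w' * cr eta H w w' := by
  induction w with
  | nil => simp [psi, cr]
  | cons a w ih =>
    rw [List.cons_append, psi_cons, psi_cons, ih]
    unfold cr
    rw [List.map_append, List.prod_append, List.map_cons, List.prod_cons]
    ring

theorem cr_perm (H : Finset (Sym2 V)) {w w' u u' : List V} (h : w.Perm u) (h' : w'.Perm u') :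
    cr eta H w w' = cr eta H u u' := by
  unfold cr
  rw [(h.map _).prod_eq]
  congr 1
  apply List.map_congr_left
  intro a _
  exact (h'.map _).prod_eq

/-- The Lie functional of a binary tree. -/
noncomputable def kap (D : BT V) (H : Finset (Sym2 V)) : ℝ := D.ev (psi eta H)

theorem kap_leaf (v : V) (H : Finset (Sym2 V)) : kap eta (.leaf v) H = 1 := by
  unfold kap
  show psi eta H [v] = 1
  simp [psi]

theorem kap_node (l r : BT V) (H : Finset (Sym2 V)) : kap eta (.node l r) H =
    kap eta l H * kap eta r H *
      (cr eta H l.letters r.letters - cr eta H r.letters l.letters) := by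
  unfold kap
  show l.ev (fun w => r.ev fun w' => psi eta H (w ++ w') - psi eta H (w' ++ w)) = _
  set X := cr eta H l.letters r.letters - cr eta H r.letters l.letters with hX
  have h1 : ∀ w, w.Perm l.letters → (r.ev fun w' => psi eta H (w ++ w') - psi eta H (w' ++ w)) =
      (r.ev (psi eta H) * X) * psi eta H w := by
    intro w hw
    have h2 : (r.ev fun w' => psi eta H (w ++ w') - psi eta H (w' ++ w)) =
        r.ev fun w' => (psi eta H w * X) * psi eta H w' := by
      apply r.ev_congr
      intro w' hw'
      rw [psi_append, psi_append, cr_perm eta H hw hw', cr_perm eta H hw' hw, hX]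
      ring
    rw [h2, r.ev_mul]
    ring
  rw [l.ev_congr h1, l.ev_mul]
  ring

theorem psi_congr {H H' : Finset (Sym2 V)} : ∀ (w : List V),
    (∀ a ∈ w, ∀ b ∈ w, s(a, b) ∈ H ↔ s(a, b) ∈ H') → psi eta H w = psi eta H' w
  | [], _ => rfl
  | a :: w, h => by
    unfold psi
    rw [psi_congr w (fun x hx y hy => h x (List.mem_cons_of_mem _ hx) y (List.mem_cons_of_mem _ hy))]
    congr 2
    apply List.map_congr_left
    intro b hb
    unfold cc
    have h1 := h a List.mem_cons_self b (List.mem_cons_of_mem _ hb)
    by_cases h2 : s(a, b) ∈ H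
    · rw [if_pos h2, if_pos (h1.1 h2)]
    · rw [if_neg h2, if_neg (fun h3 => h2 (h1.2 h3))]

theorem kap_congr {H H' : Finset (Sym2 V)} (D : BT V)
    (h : ∀ a ∈ D.letters, ∀ b ∈ D.letters, s(a, b) ∈ H ↔ s(a, b) ∈ H') :
    kap eta D H = kap eta D H' := by
  unfold kap
  apply D.ev_congr
  intro w hw
  apply psi_congr
  intro a ha b hb
  exact h a (hw.subset ha) b (hw.subset hb)

/-- The edges of the complete graph on `A`. -/
def EA (A : Finset V) : Finset (Sym2 V) := A.sym2.filter fun e => ¬ e.IsDiag

theorem mem_EA {A : Finset V} {u v : V} : s(u, v) ∈ EA A ↔ u ∈ A ∧ v ∈ A ∧ u ≠ v := by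
  unfold EA
  rw [Finset.mem_filter, Finset.mk_mem_sym2_iff, Sym2.mk_isDiag_iff]
  tauto

/-- The binary tree is one on the letters of `A`. -/
def Good (D : BT V) (A : Finset V) : Prop := D.letters.Nodup ∧ D.letters.toFinset = A

theorem Good.mem {D : BT V} {A : Finset V} (h : Good D A) {a : V} : a ∈ D.letters ↔ a ∈ A := by
  rw [← h.2, List.mem_toFinset]

theorem Good.node {D D' : BT V} {A B : Finset V} (h : Good D A) (h' : Good D' B)
    (hAB : Disjoint A B) : Good (.node D D') (A ∪ B) := by
  constructor
  · show (D.letters ++ D'.letters).Nodup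
    rw [List.nodup_append]
    refine ⟨h.1, h'.1, ?_⟩
    intro a ha b hb hab
    rw [h.mem] at ha
    rw [h'.mem] at hb
    subst hab
    exact Finset.disjoint_left.1 hAB ha hb
  · show (D.letters ++ D'.letters).toFinset = _
    rw [List.toFinset_append, h.2, h'.2]

theorem cr_eq {H : Finset (Sym2 V)} {D D' : BT V} {A B : Finset V} (h : Good D A)
    (h' : Good D' B) : cr eta H D.letters D'.letters = ∏ a ∈ A, ∏ b ∈ B, cc eta H a b := by
  unfold cr
  rw [← List.prod_toFinset _ h.1, h.2]
  apply Finset.prod_congr rfl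
  intro a _
  rw [← List.prod_toFinset _ h'.1, h'.2]

theorem disj_EA {A B : Finset V} (hAB : Disjoint A B) : Disjoint (EA A) (EA B) := by
  rw [Finset.disjoint_left]
  intro e he he'
  induction e with
  | h x y =>
    exact Finset.disjoint_left.1 hAB (mem_EA.1 he).1 (mem_EA.1 he').1

theorem kap_card {D : BT V} : ∀ {A : Finset V} {H : Finset (Sym2 V)}, Good D A →
    kap eta D H ≠ 0 → A.card ≤ (H ∩ EA A).card + 1 := by
  induction D with
  | leaf v =>
    intro A H h _
    have h1 : A = {v} := by
      rw [← h.2]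
      simp [BT.letters]
    rw [h1, Finset.card_singleton]
    omega
  | node l r ihl ihr =>
    intro A H h hk
    rw [kap_node] at hk
    have hn : (l.letters ++ r.letters).Nodup := h.1
    rw [List.nodup_append] at hn
    have hl : Good l l.letters.toFinset := ⟨hn.1, rfl⟩
    have hr : Good r r.letters.toFinset := ⟨hn.2.1, rfl⟩
    have hdis : Disjoint l.letters.toFinset r.letters.toFinset := by
      rw [Finset.disjoint_left]
      intro a ha hb
      exact hn.2.2 a (List.mem_toFinset.1 ha) a (List.mem_toFinset.1 hb) rfl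
    have hA : A = l.letters.toFinset ∪ r.letters.toFinset := by
      rw [← h.2]
      show (l.letters ++ r.letters).toFinset = _
      rw [List.toFinset_append]
    have h1 := ihl hl (fun h0 => hk (by rw [h0, zero_mul, zero_mul]))
    have h2 := ihr hr (fun h0 => hk (by rw [h0, mul_zero, zero_mul]))
    have h3 : ∃ a ∈ l.letters.toFinset, ∃ b ∈ r.letters.toFinset, s(a, b) ∈ H := by
      by_contra hc
      push Not at hc
      apply hk
      rw [cr_eq eta hl hr, cr_eq eta hr hl]
      have h4 : ∏ a ∈ l.letters.toFinset, ∏ b ∈ r.letters.toFinset, cc eta H a b = 1 := by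
        apply Finset.prod_eq_one
        intro a ha
        apply Finset.prod_eq_one
        intro b hb
        unfold cc
        rw [if_neg (hc a ha b hb)]
      have h5 : ∏ a ∈ r.letters.toFinset, ∏ b ∈ l.letters.toFinset, cc eta H a b = 1 := by
        apply Finset.prod_eq_one
        intro a ha
        apply Finset.prod_eq_one
        intro b hb
        unfold cc
        rw [Sym2.eq_swap, if_neg (hc b hb a ha)]
      rw [h4, h5, sub_self, mul_zero]
    obtain ⟨a, ha, b, hb, hab⟩ := h3
    have hne : a ≠ b := by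
      intro h
      subst h
      exact Finset.disjoint_left.1 hdis ha hb
    have h4 : insert s(a, b) ((H ∩ EA l.letters.toFinset) ∪ (H ∩ EA r.letters.toFinset)) ⊆
        H ∩ EA A := by
      intro e he
      rw [Finset.mem_insert, Finset.mem_union, Finset.mem_inter, Finset.mem_inter] at he
      rw [Finset.mem_inter]
      rcases he with he | he | he
      · rw [he]
        refine ⟨hab, ?_⟩
        rw [mem_EA, hA]
        exact ⟨Finset.mem_union_left _ ha, Finset.mem_union_right _ hb, hne⟩
      · refine ⟨he.1, ?_⟩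
        have := he.2
        induction e with
        | h x y =>
          rw [mem_EA] at this ⊢
          rw [hA]
          exact ⟨Finset.mem_union_left _ this.1, Finset.mem_union_left _ this.2.1, this.2.2⟩
      · refine ⟨he.1, ?_⟩
        have := he.2
        induction e with
        | h x y =>
          rw [mem_EA] at this ⊢
          rw [hA]
          exact ⟨Finset.mem_union_right _ this.1, Finset.mem_union_right _ this.2.1, this.2.2⟩
    have h5 := Finset.card_le_card h4
    have h6 : s(a, b) ∉ (H ∩ EA l.letters.toFinset) ∪ (H ∩ EA r.letters.toFinset) := by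
      rw [Finset.mem_union, Finset.mem_inter, Finset.mem_inter, mem_EA, mem_EA]
      rintro (h | h)
      · exact Finset.disjoint_left.1 hdis h.2.2.1 hb
      · exact Finset.disjoint_left.1 hdis ha h.2.1
    rw [Finset.card_insert_of_notMem h6, Finset.card_union_of_disjoint
      (Finset.disjoint_of_subset_left Finset.inter_subset_right
        (Finset.disjoint_of_subset_right Finset.inter_subset_right (disj_EA hdis)))] at h5
    rw [hA, Finset.card_union_of_disjoint hdis]
    rw [hA] at h5
    omega

/-- The trees of `A` have `|A| - 1` edges. -/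
def tp (A : Finset V) : Finset (Finset (Sym2 V)) := (EA A).powerset.filter fun T => T.card + 1 = A.card

theorem mem_tp {A : Finset V} {T : Finset (Sym2 V)} :
    T ∈ tp A ↔ T ⊆ EA A ∧ T.card + 1 = A.card := by
  unfold tp
  rw [Finset.mem_filter, Finset.mem_powerset]

/-- Two trees joined by an edge. -/
def join (T T' : Finset (Sym2 V)) (a b : V) : Finset (Sym2 V) := insert s(a, b) (T ∪ T')

section Join

variable {A B : Finset V} (hAB : Disjoint A B) {T T' : Finset (Sym2 V)} (hT : T ⊆ EA A)
  (hT' : T' ⊆ EA B) {a b : V} (ha : a ∈ A) (hb : b ∈ B)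

include hAB hT hT' ha hb

theorem mem_join_left {u v : V} (hu : u ∈ A) (hv : v ∈ A) :
    s(u, v) ∈ join T T' a b ↔ s(u, v) ∈ T := by
  unfold join
  rw [Finset.mem_insert, Finset.mem_union]
  constructor
  · rintro (h | h | h)
    · exfalso
      rcases Sym2.eq_iff.1 h with ⟨-, h2⟩ | ⟨h1, -⟩
      · exact Finset.disjoint_left.1 hAB (h2 ▸ hv) hb
      · exact Finset.disjoint_left.1 hAB (h1 ▸ hu) hb
    · exact h
    · exact absurd (mem_EA.1 (hT' h)).1 (Finset.disjoint_left.1 hAB hu)
  · exact fun h => Or.inr (Or.inl h)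

theorem mem_join_right {u v : V} (hu : u ∈ B) (hv : v ∈ B) :
    s(u, v) ∈ join T T' a b ↔ s(u, v) ∈ T' := by
  unfold join
  rw [Finset.mem_insert, Finset.mem_union]
  constructor
  · rintro (h | h | h)
    · exfalso
      rcases Sym2.eq_iff.1 h with ⟨h1, -⟩ | ⟨-, h2⟩
      · exact Finset.disjoint_left.1 hAB ha (h1 ▸ hu)
      · exact Finset.disjoint_left.1 hAB ha (h2 ▸ hv)
    · exact absurd hu (Finset.disjoint_left.1 hAB (mem_EA.1 (hT h)).1)
    · exact h
  · exact fun h => Or.inr (Or.inr h)

theorem mem_join_cross {u v : V} (hu : u ∈ A) (hv : v ∈ B) :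
    s(u, v) ∈ join T T' a b ↔ u = a ∧ v = b := by
  unfold join
  rw [Finset.mem_insert, Finset.mem_union]
  constructor
  · rintro (h | h | h)
    · rcases Sym2.eq_iff.1 h with h1 | ⟨h1, -⟩
      · exact h1
      · exact absurd hb (Finset.disjoint_left.1 hAB (h1 ▸ hu))
    · exact absurd hv (Finset.disjoint_left.1 hAB (mem_EA.1 (hT h)).2.1)
    · exact absurd (mem_EA.1 (hT' h)).1 (Finset.disjoint_left.1 hAB hu)
  · rintro ⟨rfl, rfl⟩
    exact Or.inl rfl

theorem join_inter_left : join T T' a b ∩ EA A = T := by
  ext e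
  induction e with
  | h x y =>
    rw [Finset.mem_inter]
    constructor
    · rintro ⟨h1, h2⟩
      rw [mem_EA] at h2
      exact (mem_join_left hAB hT hT' ha hb h2.1 h2.2.1).1 h1
    · intro h
      have h2 := mem_EA.1 (hT h)
      exact ⟨(mem_join_left hAB hT hT' ha hb h2.1 h2.2.1).2 h, hT h⟩

theorem join_inter_right : join T T' a b ∩ EA B = T' := by
  ext e
  induction e with
  | h x y =>
    rw [Finset.mem_inter]
    constructor
    · rintro ⟨h1, h2⟩
      rw [mem_EA] at h2
      exact (mem_join_right hAB hT hT' ha hb h2.1 h2.2.1).1 h1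
    · intro h
      have h2 := mem_EA.1 (hT' h)
      exact ⟨(mem_join_right hAB hT hT' ha hb h2.1 h2.2.1).2 h, hT' h⟩

theorem notMem_union : s(a, b) ∉ T ∪ T' := by
  rw [Finset.mem_union]
  rintro (h | h)
  · exact Finset.disjoint_left.1 hAB (mem_EA.1 (hT h)).2.1 hb
  · exact Finset.disjoint_left.1 hAB ha (mem_EA.1 (hT' h)).1

theorem disj_TT : Disjoint T T' :=
  Finset.disjoint_of_subset_left hT (Finset.disjoint_of_subset_right hT' (disj_EA hAB))

theorem card_join : (join T T' a b).card = T.card + T'.card + 1 := by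
  unfold join
  rw [Finset.card_insert_of_notMem (notMem_union hAB hT hT' ha hb),
    Finset.card_union_of_disjoint (disj_TT hAB hT hT' ha hb)]

theorem join_subset : join T T' a b ⊆ EA (A ∪ B) := by
  intro e he
  unfold join at he
  rw [Finset.mem_insert, Finset.mem_union] at he
  rcases he with he | he | he
  · rw [he, mem_EA]
    refine ⟨Finset.mem_union_left _ ha, Finset.mem_union_right _ hb, ?_⟩
    intro h
    subst h
    exact Finset.disjoint_left.1 hAB ha hb
  · have h := hT he
    induction e with
    | h x y =>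
      rw [mem_EA] at h ⊢
      exact ⟨Finset.mem_union_left _ h.1, Finset.mem_union_left _ h.2.1, h.2.2⟩
  · have h := hT' he
    induction e with
    | h x y =>
      rw [mem_EA] at h ⊢
      exact ⟨Finset.mem_union_right _ h.1, Finset.mem_union_right _ h.2.1, h.2.2⟩

theorem kap_join {D D' : BT V} (hD : Good D A) (hD' : Good D' B) :
    kap eta (.node D D') (join T T' a b) =
      kap eta D T * kap eta D' T' * (eta a b - eta b a) := by
  rw [kap_node]
  have h1 : kap eta D (join T T' a b) = kap eta D T := by
    apply kap_congr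
    intro u hu v hv
    exact mem_join_left hAB hT hT' ha hb (hD.mem.1 hu) (hD.mem.1 hv)
  have h2 : kap eta D' (join T T' a b) = kap eta D' T' := by
    apply kap_congr
    intro u hu v hv
    exact mem_join_right hAB hT hT' ha hb (hD'.mem.1 hu) (hD'.mem.1 hv)
  have h3 : cr eta (join T T' a b) D.letters D'.letters = eta a b := by
    rw [cr_eq eta hD hD', Finset.prod_eq_single a, Finset.prod_eq_single b]
    · unfold cc
      rw [if_pos ((mem_join_cross hAB hT hT' ha hb ha hb).2 ⟨rfl, rfl⟩)]
    · intro v hv hvb
      unfold cc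
      rw [if_neg (fun h => hvb ((mem_join_cross hAB hT hT' ha hb ha hv).1 h).2)]
    · intro h
      exact absurd hb h
    · intro u hu hua
      apply Finset.prod_eq_one
      intro v hv
      unfold cc
      rw [if_neg (fun h => hua ((mem_join_cross hAB hT hT' ha hb hu hv).1 h).1)]
    · intro h
      exact absurd ha h
  have h4 : cr eta (join T T' a b) D'.letters D.letters = eta b a := by
    rw [cr_eq eta hD' hD, Finset.prod_eq_single b, Finset.prod_eq_single a]
    · unfold cc
      rw [Sym2.eq_swap, if_pos ((mem_join_cross hAB hT hT' ha hb ha hb).2 ⟨rfl, rfl⟩)]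
    · intro u hu hua
      unfold cc
      rw [Sym2.eq_swap, if_neg (fun h => hua ((mem_join_cross hAB hT hT' ha hb hu hb).1 h).1)]
    · intro h
      exact absurd ha h
    · intro v hv hvb
      apply Finset.prod_eq_one
      intro u hu
      unfold cc
      rw [Sym2.eq_swap, if_neg (fun h => hvb ((mem_join_cross hAB hT hT' ha hb hu hv).1 h).2)]
    · intro h
      exact absurd hb h
  rw [h1, h2, h3, h4]

end Join

/-- The sum over the trees of a disjoint union. -/
theorem split_sum {A B : Finset V} (hAB : Disjoint A B) {D D' : BT V} (hD : Good D A)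
    (hD' : Good D' B) (G : Finset (Sym2 V) → ℝ)
    (hG : ∀ T, G T ≠ 0 → T.card + 1 = (A ∪ B).card) :
    ∑ T ∈ (EA (A ∪ B)).powerset, kap eta (.node D D') T * G T =
      ∑ x ∈ (tp A ×ˢ tp B) ×ˢ (A ×ˢ B), kap eta D x.1.1 * kap eta D' x.1.2 *
        (eta x.2.1 x.2.2 - eta x.2.2 x.2.1) * G (join x.1.1 x.1.2 x.2.1 x.2.2) := by
  symm
  apply Finset.sum_of_injOn (fun x => join x.1.1 x.1.2 x.2.1 x.2.2)
  · rintro ⟨⟨T, T'⟩, a, b⟩ hx ⟨⟨S, S'⟩, c, d⟩ hy h
    simp only [Finset.coe_product, Set.mem_prod, Finset.mem_coe, mem_tp] at hx hy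
    obtain ⟨⟨⟨hT, -⟩, hT', -⟩, ha, hb⟩ := hx
    obtain ⟨⟨⟨hS, -⟩, hS', -⟩, hc, hd⟩ := hy
    simp only at h
    have h1 : T = S := by
      rw [← join_inter_left hAB hT hT' ha hb, h, join_inter_left hAB hS hS' hc hd]
    have h2 : T' = S' := by
      rw [← join_inter_right hAB hT hT' ha hb, h, join_inter_right hAB hS hS' hc hd]
    have h3 := (mem_join_cross hAB hT hT' ha hb ha hb).2 ⟨rfl, rfl⟩
    rw [h, mem_join_cross hAB hS hS' hc hd ha hb] at h3
    rw [h1, h2, h3.1, h3.2]
  · rintro ⟨⟨T, T'⟩, a, b⟩ hx
    simp only [Finset.coe_product, Set.mem_prod, Finset.mem_coe, mem_tp] at hx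
    obtain ⟨⟨⟨hT, -⟩, hT', -⟩, ha, hb⟩ := hx
    simp only [Finset.mem_coe, Finset.mem_powerset]
    exact join_subset hAB hT hT' ha hb
  · intro T hT hni
    by_contra hne
    apply hni
    rw [Finset.mem_powerset] at hT
    have hk : kap eta (.node D D') T ≠ 0 := left_ne_zero_of_mul hne
    have hc := hG T (right_ne_zero_of_mul hne)
    rw [kap_node] at hk
    have h1 := kap_card eta hD (fun h0 => hk (by rw [h0, zero_mul, zero_mul]))
    have h2 := kap_card eta hD' (fun h0 => hk (by rw [h0, mul_zero, zero_mul]))
    have h3 : ∃ a ∈ A, ∃ b ∈ B, s(a, b) ∈ T := by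
      by_contra hc
      push Not at hc
      apply hk
      rw [cr_eq eta hD hD', cr_eq eta hD' hD]
      have h4 : ∏ a ∈ A, ∏ b ∈ B, cc eta T a b = 1 := by
        apply Finset.prod_eq_one
        intro a ha
        apply Finset.prod_eq_one
        intro b hb
        unfold cc
        rw [if_neg (hc a ha b hb)]
      have h5 : ∏ a ∈ B, ∏ b ∈ A, cc eta T a b = 1 := by
        apply Finset.prod_eq_one
        intro a ha
        apply Finset.prod_eq_one
        intro b hb
        unfold cc
        rw [Sym2.eq_swap, if_neg (hc b hb a ha)]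
      rw [h4, h5, sub_self, mul_zero]
    obtain ⟨a, ha, b, hb, hab⟩ := h3
    have hs1 : T ∩ EA A ⊆ EA A := Finset.inter_subset_right
    have hs2 : T ∩ EA B ⊆ EA B := Finset.inter_subset_right
    have h4 : join (T ∩ EA A) (T ∩ EA B) a b ⊆ T := by
      intro e he
      unfold join at he
      rw [Finset.mem_insert, Finset.mem_union, Finset.mem_inter, Finset.mem_inter] at he
      rcases he with he | he | he
      · rw [he]
        exact hab
      · exact he.1
      · exact he.1
    have h5 := Finset.card_le_card h4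
    have h6 := card_join hAB hs1 hs2 ha hb
    rw [Finset.card_union_of_disjoint hAB] at hc
    have h7 : join (T ∩ EA A) (T ∩ EA B) a b = T :=
      Finset.eq_of_subset_of_card_le h4 (by omega)
    refine ⟨((T ∩ EA A, T ∩ EA B), (a, b)), ?_, h7⟩
    simp only [Finset.coe_product, Set.mem_prod, Finset.mem_coe, mem_tp]
    refine ⟨⟨⟨hs1, by omega⟩, hs2, by omega⟩, ha, hb⟩
  · rintro ⟨⟨T, T'⟩, a, b⟩ hx
    simp only [Finset.mem_product, mem_tp] at hx
    obtain ⟨⟨⟨hT, -⟩, hT', -⟩, ha, hb⟩ := hx
    simp only
    rw [kap_join eta hAB hT hT' ha hb hD hD']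

end Pool.Agent.W225.RP
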