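import Mathlib

/-!
# Rooted trees as parent functions, and a spectral lemma
-/

set_option autoImplicit false
set_option linter.unusedSectionVars false

namespace Pool.Agent.W225.RP

open Finset

variable {V : Type*} [DecidableEq V]

/-- `f` is the parent function of a tree on the vertex set `A` with root `v`. -/
def RT (A : Finset V) (v : V) (f : V → V) : Prop :=
  v ∈ A ∧ f v = v ∧ (∀ u, u ∉ A → f u = u) ∧ (∀ u ∈ A, f u ∈ A) ∧
    ∃ rk : V → ℕ, ∀ u ∈ A, u ≠ v → rk (f u) < rk u

/-- The vertices from which `w` is reached. -/
inductive Desc (f : V → V) (w : V) : V → Prop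
  | base : Desc f w w
  | step {u : V} : u ≠ w → Desc f w (f u) → Desc f w u

theorem Desc.congr {f g : V → V} {w u : V} (h : Desc f w u) (hfg : ∀ x, x ≠ w → f x = g x) :
    Desc g w u := by
  induction h with
  | base => exact Desc.base
  | step hu _ ih => exact Desc.step hu (by rw [← hfg _ hu]; exact ih)

theorem Desc.ne_of_fix {f : V → V} {v w u : V} (h : Desc f w u) (hv : f v = v) (hvw : v ≠ w) :
    u ≠ v := by
  induction h with
  | base => exact hvw.symm
  | @step u _ _ ih =>
    intro h
    subst h
    exact ih hv

theorem desc_iff {f : V → V} {w u : V} (hu : u ≠ w) : Desc f w u ↔ Desc f w (f u) := by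
  constructor
  · intro h
    cases h with
    | base => exact absurd rfl hu
    | step _ h => exact h
  · exact Desc.step hu

theorem Desc.rk_le {A : Finset V} {f : V → V} {v w u : V} {rk : V → ℕ} (h : Desc f w u)
    (hfv : f v = v) (hA : ∀ u ∈ A, f u ∈ A) (hrk : ∀ u ∈ A, u ≠ v → rk (f u) < rk u)
    (hw : w ≠ v) (hu : u ∈ A) : rk w ≤ rk u := by
  induction h with
  | base => exact le_rfl
  | @step u hne h ih =>
    have h1 := ih (hA u hu)
    have h2 : u ≠ v := (Desc.step hne h).ne_of_fix hfv hw.symm
    exact h1.trans (hrk u hu h2).le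

/-- The parent of `w` is not a descendant of `w`. -/
theorem RT.parent_not_desc {A : Finset V} {f : V → V} {v w : V} (h : RT A v f) (hw : w ∈ A)
    (hwv : w ≠ v) : ¬ Desc f w (f w) := by
  obtain ⟨hv, hfv, -, hA, rk, hrk⟩ := h
  intro h1
  have h2 := h1.rk_le hfv hA hrk hwv (hA w hw)
  have h3 := hrk w hw hwv
  omega

theorem RT.update1 {A : Finset V} {f : V → V} {v w a : V} (h : RT A v f) (hw : w ∈ A)
    (hwv : w ≠ v) (ha : a ∈ A) (had : ¬ Desc f w a) : RT A v (Function.update f w a) := by
  classical
  obtain ⟨hv, hfv, hfA, hA, rk, hrk⟩ := h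
  refine ⟨hv, ?_, ?_, ?_, fun u => if Desc f w u then rk u + rk a + 1 else rk u, ?_⟩
  · rw [Function.update_of_ne hwv.symm, hfv]
  · intro u hu
    rw [Function.update_of_ne (ne_of_mem_of_not_mem hw hu).symm, hfA u hu]
  · intro u hu
    by_cases huw : u = w
    · rw [huw, Function.update_self]
      exact ha
    · rw [Function.update_of_ne huw]
      exact hA u hu
  · intro u hu huv
    by_cases huw : u = w
    · subst huw
      rw [Function.update_self]
      simp only [if_neg had, if_pos (Desc.base (f := f) (w := u))]
      omega
    · rw [Function.update_of_ne huw]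
      have h1 := hrk u hu huv
      by_cases h2 : Desc f w u
      · simp only [if_pos h2, if_pos ((desc_iff huw).1 h2)]
        omega
      · simp only [if_neg h2, if_neg (fun h => h2 ((desc_iff huw).2 h))]
        exact h1

theorem RT.update2 {A : Finset V} {f : V → V} {v w b : V} (h : RT A v f) (hw : w ∈ A)
    (hwv : w ≠ v) (hb : b ∈ A) (hbd : Desc f w b) :
    RT A w (Function.update (Function.update f v b) w w) := by
  classical
  obtain ⟨hv, hfv, hfA, hA, rk, hrk⟩ := h
  refine ⟨hw, ?_, ?_, ?_, fun u => if Desc f w u then rk u else rk u + rk b + 1, ?_⟩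
  · rw [Function.update_self]
  · intro u hu
    rw [Function.update_of_ne (ne_of_mem_of_not_mem hw hu).symm, Function.update_of_ne (ne_of_mem_of_not_mem hv hu).symm,
      hfA u hu]
  · intro u hu
    by_cases huw : u = w
    · rw [huw, Function.update_self]
      exact hw
    · rw [Function.update_of_ne huw]
      by_cases huv : u = v
      · rw [huv, Function.update_self]
        exact hb
      · rw [Function.update_of_ne huv]
        exact hA u hu
  · intro u hu huw
    rw [Function.update_of_ne huw]
    by_cases huv : u = v
    · subst huv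
      have h2 : ¬ Desc f w u := fun h => h.ne_of_fix hfv hwv.symm rfl
      rw [Function.update_self]
      simp only [if_neg h2, if_pos hbd]
      omega
    · rw [Function.update_of_ne huv]
      have h1 := hrk u hu huv
      by_cases h2 : Desc f w u
      · simp only [if_pos h2, if_pos ((desc_iff huw).1 h2)]
        exact h1
      · simp only [if_neg h2, if_neg (fun h => h2 ((desc_iff huw).2 h))]
        omega

/-- After rerooting, the vertices outside the branch of the old root are descendants of the new
root. -/
theorem RT.desc_swap {A : Finset V} {g : V → V} {i w : V} (h : RT A w g) {u : V}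
    (hu : u ∈ A) (hud : ¬ Desc g i u) :
    Desc (Function.update (Function.update g i i) w i) w u := by
  obtain ⟨hw, hgw, hgA, hA, rk, hrk⟩ := h
  have key : ∀ n : ℕ, ∀ u ∈ A, rk u ≤ n → ¬ Desc g i u →
      Desc (Function.update (Function.update g i i) w i) w u := by
    intro n
    induction n with
    | zero =>
      intro u hu hn hud
      by_cases huw : u = w
      · rw [huw]
        exact Desc.base
      · have := hrk u hu huw
        omega
    | succ n ih =>
      intro u hu hn hud
      by_cases huw : u = w
      · rw [huw]
        exact Desc.base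
      · have h1 := hrk u hu huw
        have hui : u ≠ i := by
          intro h
          apply hud
          rw [h]
          exact Desc.base
        apply Desc.step huw
        rw [Function.update_of_ne huw, Function.update_of_ne hui]
        exact ih (g u) (hA u hu) (by omega) (fun h => hud ((desc_iff hui).2 h))
  exact key _ u hu le_rfl hud

/-- Every vertex but the root is a descendant of exactly one child of the root. -/
theorem RT.exists_child {A : Finset V} {f : V → V} {v : V} (h : RT A v f) {u : V} (hu : u ∈ A)
    (huv : u ≠ v) : ∃ w ∈ A, w ≠ v ∧ f w = v ∧ Desc f w u := by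
  obtain ⟨hv, hfv, hfA, hA, rk, hrk⟩ := h
  have key : ∀ n : ℕ, ∀ u ∈ A, u ≠ v → rk u ≤ n → ∃ w ∈ A, w ≠ v ∧ f w = v ∧ Desc f w u := by
    intro n
    induction n with
    | zero =>
      intro u hu huv hn
      have := hrk u hu huv
      omega
    | succ n ih =>
      intro u hu huv hn
      by_cases hfu : f u = v
      · exact ⟨u, hu, huv, hfu, Desc.base⟩
      · have h1 := hrk u hu huv
        obtain ⟨w, hw, hwv, hfw, hd⟩ := ih (f u) (hA u hu) hfu (by omega)
        refine ⟨w, hw, hwv, hfw, ?_⟩
        by_cases huw : u = w
        · exact absurd (huw ▸ hfw) hfu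
        · exact Desc.step huw hd
  exact key _ u hu huv le_rfl

theorem child_unique {f : V → V} {v w w' u : V} (hfv : f v = v) (hw : w ≠ v) (hw' : w' ≠ v)
    (hfw : f w = v) (hfw' : f w' = v) (h : Desc f w u) (h' : Desc f w' u) : w = w' := by
  induction h with
  | base =>
    by_contra hne
    rw [desc_iff hne, hfw] at h'
    exact h'.ne_of_fix hfv hw'.symm rfl
  | @step u hu h ih =>
    by_cases huw' : u = w'
    · subst huw'
      rw [hfw'] at h
      exact absurd rfl (h.ne_of_fix hfv hw.symm)
    · exact ih ((desc_iff huw').1 h')

section Sums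

variable [Fintype V]

open Classical in
/-- The trees with root `i` which agree with `f₀` outside `R`. -/
noncomputable def fam (A : Finset V) (i : V) (R : Finset V) (f₀ : V → V) : Finset (V → V) :=
  Finset.univ.filter fun f => RT A i f ∧ ∀ u, u ∉ R → f u = f₀ u

open Classical in
/-- The descendants of `w` in `A`. -/
noncomputable def dsc (A : Finset V) (f : V → V) (w : V) : Finset V := A.filter fun u => Desc f w u

omit [Fintype V] in
theorem mem_dsc {A : Finset V} {f : V → V} {w u : V} : u ∈ dsc A f w ↔ u ∈ A ∧ Desc f w u := by
  unfold dsc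
  simp

theorem mem_fam {A : Finset V} {i : V} {R : Finset V} {f₀ f : V → V} :
    f ∈ fam A i R f₀ ↔ RT A i f ∧ ∀ u, u ∉ R → f u = f₀ u := by
  unfold fam
  simp

theorem sum_update1 {A : Finset V} {i w : V} {R : Finset V} (f₀ : V → V) (hi : i ∈ A)
    (hwA : w ∈ A) (hwi : w ≠ i) (hw : w ∈ R) (G : (V → V) → ℝ) :
    ∑ f ∈ (fam A i R f₀).filter (fun f => f w = i), ∑ a ∈ A \ dsc A f w, G (Function.update f w a) =
      ∑ f ∈ fam A i R f₀, G f := by
  classical
  rw [Finset.sum_sigma']
  apply Finset.sum_bij' (fun x _ => Function.update x.1 w x.2)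
    (fun g _ => (⟨Function.update g w i, g w⟩ : (_ : V → V) × V))
  · rintro ⟨f, a⟩ h
    simp only [Finset.mem_sigma, Finset.mem_filter, mem_fam, Finset.mem_sdiff, mem_dsc] at h
    obtain ⟨⟨⟨hf, hR⟩, hfw⟩, ha, had⟩ := h
    rw [mem_fam]
    refine ⟨hf.update1 hwA hwi ha (fun h => had ⟨ha, h⟩), ?_⟩
    intro u hu
    rw [Function.update_of_ne (ne_of_mem_of_not_mem hw hu).symm]
    exact hR u hu
  · intro g hg
    rw [mem_fam] at hg
    obtain ⟨hg, hR⟩ := hg
    have h1 : ¬ Desc g w i := fun h => h.ne_of_fix hg.2.1 hwi.symm rfl
    simp only [Finset.mem_sigma, Finset.mem_filter, mem_fam, Finset.mem_sdiff, mem_dsc]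
    refine ⟨⟨⟨hg.update1 hwA hwi hi h1, ?_⟩, Function.update_self ..⟩, hg.2.2.2.1 w hwA, ?_⟩
    · intro u hu
      rw [Function.update_of_ne (ne_of_mem_of_not_mem hw hu).symm]
      exact hR u hu
    · rintro ⟨-, h2⟩
      apply hg.parent_not_desc hwA hwi
      exact h2.congr fun x hx => Function.update_of_ne hx _ _
  · rintro ⟨f, a⟩ h
    simp only [Finset.mem_sigma, Finset.mem_filter, mem_fam] at h
    obtain ⟨⟨⟨hf, hR⟩, hfw⟩, ha⟩ := h
    simp only [Function.update_idem, Function.update_self]
    congr
    rw [← hfw, Function.update_eq_self]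
  · intro g _
    simp
  · rintro ⟨f, a⟩ _
    rfl

theorem sum_update2 {A : Finset V} {i w : V} {R : Finset V} (f₀ : V → V) (hi : i ∈ A)
    (hwA : w ∈ A) (hwi : w ≠ i) (hw : w ∈ R) (hiR : i ∈ R) (G : (V → V) → ℝ) :
    ∑ f ∈ (fam A i R f₀).filter (fun f => f w = i), ∑ b ∈ dsc A f w,
      G (Function.update (Function.update f i b) w w) = ∑ f ∈ fam A w R f₀, G f := by
  classical
  rw [Finset.sum_sigma']
  apply Finset.sum_bij' (fun x _ => Function.update (Function.update x.1 i x.2) w w)
    (fun g _ => (⟨Function.update (Function.update g i i) w i, g i⟩ : (_ : V → V) × V))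
  · rintro ⟨f, b⟩ h
    simp only [Finset.mem_sigma, Finset.mem_filter, mem_fam, mem_dsc] at h
    obtain ⟨⟨⟨hf, hR⟩, hfw⟩, hb, hbd⟩ := h
    rw [mem_fam]
    refine ⟨hf.update2 hwA hwi hb hbd, ?_⟩
    intro u hu
    rw [Function.update_of_ne (ne_of_mem_of_not_mem hw hu).symm,
      Function.update_of_ne (ne_of_mem_of_not_mem hiR hu).symm]
    exact hR u hu
  · intro g hg
    rw [mem_fam] at hg
    obtain ⟨hg, hR⟩ := hg
    simp only [Finset.mem_sigma, Finset.mem_filter, mem_fam, mem_dsc]
    refine ⟨⟨⟨?_, ?_⟩, Function.update_self ..⟩, hg.2.2.2.1 i hi, ?_⟩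
    · have h1 := hg.update2 (w := i) (b := i) hi hwi.symm hi Desc.base
      rw [Function.update_comm hwi] at h1
      exact h1
    · intro u hu
      rw [Function.update_of_ne (ne_of_mem_of_not_mem hw hu).symm,
        Function.update_of_ne (ne_of_mem_of_not_mem hiR hu).symm]
      exact hR u hu
    · exact hg.desc_swap (hg.2.2.2.1 i hi) (hg.parent_not_desc hi hwi.symm)
  · rintro ⟨f, b⟩ h
    simp only [Finset.mem_sigma, Finset.mem_filter, mem_fam] at h
    obtain ⟨⟨⟨hf, hR⟩, hfw⟩, hb⟩ := h
    have h1 : Function.update (Function.update f i b) w w i = b := by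
      rw [Function.update_of_ne hwi.symm, Function.update_self]
    have h2 : Function.update (Function.update (Function.update (Function.update f i b) w w) i i)
        w i = f := by
      funext x
      by_cases hx : x = w
      · rw [hx, Function.update_self, hfw]
      · rw [Function.update_of_ne hx]
        by_cases hxi : x = i
        · rw [hxi, Function.update_self, hf.2.1]
        · rw [Function.update_of_ne hxi, Function.update_of_ne hx, Function.update_of_ne hxi]
    simp only [h1, h2]
  · intro g hg
    rw [mem_fam] at hg
    obtain ⟨hg, hR⟩ := hg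
    funext x
    simp only
    by_cases hx : x = w
    · rw [hx, Function.update_self, hg.2.1]
    · rw [Function.update_of_ne hx]
      by_cases hxi : x = i
      · rw [hxi, Function.update_self]
      · rw [Function.update_of_ne hxi, Function.update_of_ne hx, Function.update_of_ne hxi]
  · rintro ⟨f, b⟩ _
    rfl

/-- **The spectral lemma**: the linear system has only the zero solution when `lam > 0`. -/
theorem spectral (A : Finset V) (F : V → (V → V) → ℝ) {lam : ℝ} (hlam : 0 < lam)
    (hEQ : ∀ v f, RT A v f → lam * F v f =
      -∑ w ∈ (A.erase v).filter (fun w => f w = v),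
        (∑ a ∈ A \ dsc A f w, F v (Function.update f w a) +
          ∑ b ∈ dsc A f w, F w (Function.update (Function.update f v b) w w))) :
    ∀ v f, RT A v f → F v f = 0 := by
  classical
  have key : ∀ n : ℕ, ∀ R : Finset V, R ⊆ A → (A \ R).card = n → ∀ (f₀ : V → V), ∀ i ∈ R,
      ∑ f ∈ fam A i R f₀, F i f = 0 := by
    intro n
    induction n using Nat.strong_induction_on with
    | _ n ih =>
      intro R hRA hn f₀
      have hcard : ∀ w ∈ A, w ∉ R → (A \ insert w R).card < n := by
        intro w hwA hwR
        rw [← hn]
        apply Finset.card_lt_card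
        rw [Finset.ssubset_iff_of_subset
          (Finset.sdiff_subset_sdiff (le_refl A) (Finset.subset_insert w R))]
        exact ⟨w, Finset.mem_sdiff.2 ⟨hwA, hwR⟩, fun h =>
          (Finset.mem_sdiff.1 h).2 (Finset.mem_insert_self w R)⟩
      set G : V → ℝ := fun i => ∑ f ∈ fam A i R f₀, F i f with hG
      have h1 : ∀ i ∈ R, lam * G i = -∑ w ∈ R.erase i, (G i + G w) := by
        intro i hi
        have hiA := hRA hi
        rw [hG]
        simp only
        rw [Finset.mul_sum]
        have h2 : ∑ f ∈ fam A i R f₀, lam * F i f = ∑ f ∈ fam A i R f₀,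
            -∑ w ∈ (A.erase i).filter (fun w => f w = i),
              (∑ a ∈ A \ dsc A f w, F i (Function.update f w a) +
                ∑ b ∈ dsc A f w, F w (Function.update (Function.update f i b) w w)) := by
          apply Finset.sum_congr rfl
          intro f hf
          exact hEQ i f (mem_fam.1 hf).1
        rw [h2, Finset.sum_neg_distrib]
        congr 1
        simp_rw [Finset.sum_filter]
        rw [Finset.sum_comm]
        have h3 : ∀ w ∈ A.erase i, ∑ f ∈ fam A i R f₀, (if f w = i then
            (∑ a ∈ A \ dsc A f w, F i (Function.update f w a) +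
              ∑ b ∈ dsc A f w, F w (Function.update (Function.update f i b) w w)) else 0) =
            if w ∈ R then (G i + G w) else 0 := by
          intro w hw
          rw [Finset.mem_erase] at hw
          obtain ⟨hwi, hwA⟩ := hw
          rw [← Finset.sum_filter, Finset.sum_add_distrib]
          by_cases hwR : w ∈ R
          · rw [if_pos hwR, sum_update1 f₀ hiA hwA hwi hwR (F i),
              sum_update2 f₀ hiA hwA hwi hwR hi (F w)]
          · rw [if_neg hwR]
            by_cases hfw : f₀ w = i
            · have h4 : (fam A i R f₀).filter (fun f => f w = i) =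
                  (fam A i (insert w R) f₀).filter (fun f => f w = i) := by
                ext f
                simp only [Finset.mem_filter, mem_fam, Finset.mem_insert, not_or]
                constructor
                · rintro ⟨⟨h5, h6⟩, h7⟩
                  exact ⟨⟨h5, fun u hu => h6 u hu.2⟩, h7⟩
                · rintro ⟨⟨h5, h6⟩, h7⟩
                  refine ⟨⟨h5, fun u hu => ?_⟩, h7⟩
                  by_cases huw : u = w
                  · rw [huw, h7, hfw]
                  · exact h6 u ⟨huw, hu⟩
              rw [h4, sum_update1 f₀ hiA hwA hwi (Finset.mem_insert_self w R) (F i),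
                sum_update2 f₀ hiA hwA hwi (Finset.mem_insert_self w R)
                  (Finset.mem_insert_of_mem hi) (F w),
                ih _ (hcard w hwA hwR) (insert w R) (Finset.insert_subset hwA hRA) rfl f₀ i
                  (Finset.mem_insert_of_mem hi),
                ih _ (hcard w hwA hwR) (insert w R) (Finset.insert_subset hwA hRA) rfl f₀ w
                  (Finset.mem_insert_self w R), add_zero]
            · have h4 : (fam A i R f₀).filter (fun f => f w = i) = ∅ := by
                apply Finset.filter_eq_empty_iff.2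
                intro f hf h5
                rw [(mem_fam.1 hf).2 w hwR] at h5
                exact hfw h5
              rw [h4, Finset.sum_empty, Finset.sum_empty, add_zero]
        rw [Finset.sum_congr rfl h3, ← Finset.sum_filter]
        apply Finset.sum_congr _ (fun _ _ => rfl)
        ext w
        simp only [Finset.mem_filter, Finset.mem_erase]
        constructor
        · rintro ⟨⟨h5, -⟩, h6⟩
          exact ⟨h5, h6⟩
        · rintro ⟨h5, h6⟩
          exact ⟨⟨h5, hRA h6⟩, h6⟩
      -- the total sum
      set S : ℝ := ∑ w ∈ R, G w with hS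
      have h4 : ∀ i ∈ R, (lam + R.card - 2) * G i = -S := by
        intro i hi
        have h5 := h1 i hi
        rw [Finset.sum_add_distrib, Finset.sum_const, Finset.card_erase_of_mem hi, nsmul_eq_mul,
          Nat.cast_sub (Finset.card_pos.2 ⟨i, hi⟩)] at h5
        have h6 := Finset.add_sum_erase R G hi
        rw [← hS] at h6
        push_cast at h5
        linarith
      intro i hi
      have hpos : 1 ≤ R.card := Finset.card_pos.2 ⟨i, hi⟩
      have hS0 : S = 0 := by
        have h5 : ∑ i ∈ R, (lam + R.card - 2) * G i = ∑ _i ∈ R, -S := Finset.sum_congr rfl h4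
        rw [← Finset.mul_sum, ← hS, Finset.sum_const, nsmul_eq_mul] at h5
        have h6 : (lam + 2 * (R.card : ℝ) - 2) * S = 0 := by linarith
        rcases mul_eq_zero.1 h6 with h7 | h7
        · exfalso
          have h8 : (1 : ℝ) ≤ R.card := by exact_mod_cast hpos
          linarith
        · exact h7
      show G i = 0
      rcases Nat.lt_or_ge R.card 2 with h2 | h2
      · have h3 : R.card = 1 := by omega
        obtain ⟨j, hj⟩ := Finset.card_eq_one.1 h3
        rw [hS, hj, Finset.sum_singleton] at hS0
        rw [hj, Finset.mem_singleton] at hi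
        rw [hi]
        exact hS0
      · have h5 := h4 i hi
        rw [hS0, neg_zero] at h5
        rcases mul_eq_zero.1 h5 with h7 | h7
        · exfalso
          have h8 : (2 : ℝ) ≤ R.card := by exact_mod_cast h2
          linarith
        · exact h7
  intro v f hf
  have h1 := key _ {v} (Finset.singleton_subset_iff.2 hf.1) rfl f v (Finset.mem_singleton_self v)
  have h2 : fam A v {v} f = {f} := by
    ext g
    rw [mem_fam, Finset.mem_singleton]
    constructor
    · rintro ⟨h3, h4⟩
      funext u
      by_cases hu : u = v
      · rw [hu, h3.2.1, hf.2.1]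
      · exact h4 u (by simpa using hu)
    · rintro rfl
      exact ⟨hf, fun _ _ => rfl⟩
  rw [h2, Finset.sum_singleton] at h1
  exact h1

end Sums

end Pool.Agent.W225.RP
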