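import Pool.Agent.W225.RP.Lie

/-!
# Splitting a relation between tree polynomials
-/

set_option autoImplicit false
set_option linter.unusedSectionVars false

namespace Pool.Agent.W225.RP

open Finset Filter Topology

/-! ### A mixed derivative -/

theorem deriv_zero {f : ℝ → ℝ} {f' : ℝ} (h : ∀ x, x ≠ 0 → f x = 0) (hd : HasDerivAt f f' 0) :
    f' = 0 := by
  have h0 : f 0 = 0 := by
    have h1 : Tendsto f (𝓝[≠] 0) (𝓝 (f 0)) := hd.continuousAt.tendsto.mono_left nhdsWithin_le_nhds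
    have h2 : Tendsto f (𝓝[≠] 0) (𝓝 0) := by
      apply tendsto_const_nhds.congr'
      filter_upwards [self_mem_nhdsWithin] with x hx
      exact (h x hx).symm
    exact tendsto_nhds_unique h1 h2
  have h1 : f = fun _ => 0 := by
    funext x
    by_cases hx : x = 0
    · rw [hx, h0]
    · exact h x hx
  rw [h1] at hd
  exact hd.unique (hasDerivAt_const 0 0)

theorem mixed {ι : Type*} (s : Finset ι) (K P Q S a b : ι → ℝ) (N : ℕ)
    (h : ∀ x y : ℝ, x ≠ 0 → y ≠ 0 →
      ∑ i ∈ s, K i * ((x * P i + y * Q i + S i) * (1 + y * b i - x * a i) ^ (N + 1)) = 0) :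
    ∑ i ∈ s, K i * (P i * b i - Q i * a i - N * (S i * (a i * b i))) = 0 := by
  have h1 : ∀ y : ℝ, y ≠ 0 → ∑ i ∈ s, K i * (P i * (1 + y * b i) ^ (N + 1) +
      (y * Q i + S i) * ((N + 1 : ℕ) * (1 + y * b i) ^ N * (-a i))) = 0 := by
    intro y hy
    apply deriv_zero (fun x hx => h x y hx hy)
    apply HasDerivAt.fun_sum
    intro i _
    have h2 : HasDerivAt (fun x : ℝ => x * P i + y * Q i + S i) (P i) 0 := by
      have := (((hasDerivAt_id (0 : ℝ)).mul_const (P i)).add_const (y * Q i)).add_const (S i)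
      simpa using this
    have h3 : HasDerivAt (fun x : ℝ => 1 + y * b i - x * a i) (-a i) 0 := by
      have := ((hasDerivAt_id (0 : ℝ)).mul_const (a i)).const_sub (1 + y * b i)
      simpa using this
    have h4 := (h2.mul (h3.pow (N + 1))).const_mul (K i)
    refine h4.congr_deriv ?_
    simp
  have h2 := deriv_zero h1 (f' := ∑ i ∈ s, K i * (P i * ((N + 1 : ℕ) * b i) +
      (Q i * ((N + 1 : ℕ) * (-a i)) + S i * ((N + 1 : ℕ) * ((N : ℝ) * b i) * (-a i))))) (by
    apply HasDerivAt.fun_sum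
    intro i _
    have h3 : HasDerivAt (fun y : ℝ => 1 + y * b i) (b i) 0 := by
      have := ((hasDerivAt_id (0 : ℝ)).mul_const (b i)).const_add 1
      simpa using this
    have h4 : HasDerivAt (fun y : ℝ => y * Q i + S i) (Q i) 0 := by
      have := ((hasDerivAt_id (0 : ℝ)).mul_const (Q i)).add_const (S i)
      simpa using this
    have h5 := ((h3.pow (N + 1)).const_mul (P i)).add
      (h4.mul ((((h3.pow N).const_mul (((N + 1 : ℕ) : ℝ)))).mul_const (-a i)))
    refine (h5.const_mul (K i)).congr_deriv ?_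
    simp)
  have h3 : ((N + 1 : ℕ) : ℝ) * ∑ i ∈ s, K i * (P i * b i - Q i * a i - N * (S i * (a i * b i))) =
      0 := by
    rw [← h2, Finset.mul_sum]
    apply Finset.sum_congr rfl
    intro i _
    ring
  rcases mul_eq_zero.1 h3 with h4 | h4
  · exfalso
    have : ((N + 1 : ℕ) : ℝ) ≠ 0 := by positivity
    exact this h4
  · exact h4

variable {V : Type*} [DecidableEq V]

/-- The even power of the length of an edge. -/
def pw (k : ℕ) (y : V → ℝ) (e : Sym2 V) : ℝ :=
  Sym2.lift ⟨fun u v => ((y u - y v) ^ 2) ^ k, by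
    intro u v
    simp only
    rw [show (y u - y v) ^ 2 = (y v - y u) ^ 2 by ring]⟩ e

theorem pw_mk (k : ℕ) (y : V → ℝ) (u v : V) : pw k y s(u, v) = ((y u - y v) ^ 2) ^ k := rfl

/-- The product of the even powers of the lengths of the edges. -/
def PP (k : ℕ) (y : V → ℝ) (T : Finset (Sym2 V)) : ℝ := ∏ e ∈ T, pw k y e

theorem PP_scale (k : ℕ) {A : Finset V} {y y' : V → ℝ} {α s : ℝ} (h : ∀ u ∈ A, y' u = α * y u + s)
    {T : Finset (Sym2 V)} (hT : T ⊆ EA A) : PP k y' T = ((α ^ 2) ^ k) ^ T.card * PP k y T := by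
  unfold PP
  rw [← Finset.prod_const, ← Finset.prod_mul_distrib]
  apply Finset.prod_congr rfl
  intro e he
  have h1 := hT he
  induction e with
  | h u v =>
    rw [mem_EA] at h1
    rw [pw_mk, pw_mk, h u h1.1, h v h1.2.1, ← mul_pow, ← mul_pow]
    congr 2
    ring

theorem PP_congr (k : ℕ) {A : Finset V} {y y' : V → ℝ} (h : ∀ u ∈ A, y' u = y u)
    {T : Finset (Sym2 V)} (hT : T ⊆ EA A) : PP k y' T = PP k y T := by
  have := PP_scale k (α := 1) (s := 0) (y := y) (y' := y') (fun u hu => by rw [h u hu]; ring) hT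
  simpa using this

theorem PP_join (k : ℕ) {A B : Finset V} (hAB : Disjoint A B) {T T' : Finset (Sym2 V)}
    (hT : T ⊆ EA A) (hT' : T' ⊆ EA B) {a b : V} (ha : a ∈ A) (hb : b ∈ B) (y : V → ℝ) :
    PP k y (join T T' a b) = PP k y T * PP k y T' * ((y a - y b) ^ 2) ^ k := by
  unfold PP join
  rw [Finset.prod_insert (notMem_union hAB hT hT' ha hb),
    Finset.prod_union (disj_TT hAB hT hT' ha hb), pw_mk]
  ring

variable (eta : V → V → ℝ)

/-- The coefficient in the splitting lemma. -/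
noncomputable def CC (k : ℕ) (A B : Finset V) (c : Finset (Sym2 V) → V → ℝ)
    (d : Finset (Sym2 V) → ℝ) (T T' : Finset (Sym2 V)) (x w : V) : ℝ :=
  (∑ a ∈ A, eta a w * c (join T T' a w) x) - (∑ b ∈ B, eta x b * c (join T T' x b) w) -
    (2 * k + 1 : ℕ) * (eta x w * ((∑ u ∈ B, c (join T T' x w) u) + d (join T T' x w)))

/-- **The splitting lemma.** The exponent is `2 (k + 1)`. -/
theorem split_main (heta : ∀ u v, u ≠ v → eta v u = -eta u v) (k : ℕ) {A B : Finset V}
    (hAB : Disjoint A B) {D D' : BT V} (hD : Good D A) (hD' : Good D' B)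
    (c : Finset (Sym2 V) → V → ℝ) (d : Finset (Sym2 V) → ℝ)
    (hc : ∀ T, T.card + 1 ≠ (A ∪ B).card → d T = 0 ∧ ∀ u, c T u = 0)
    (hrel : ∀ y : V → ℝ, ∑ T ∈ (EA (A ∪ B)).powerset, kap eta (.node D D') T *
      (((∑ u ∈ A ∪ B, c T u * y u) + d T) * PP (k + 1) y T) = 0) (y : V → ℝ) :
    ∑ T ∈ tp A, kap eta D T * PP (k + 1) y T * ∑ T' ∈ tp B, kap eta D' T' * PP (k + 1) y T' *
      ∑ x ∈ A, ∑ w ∈ B, y x * y w * CC eta k A B c d T T' x w = 0 := by
  classical
  -- the relation as a sum over pairs of trees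
  have h1 : ∀ y : V → ℝ, ∑ x ∈ (tp A ×ˢ tp B) ×ˢ (A ×ˢ B), (kap eta D x.1.1 * kap eta D' x.1.2 *
      eta x.2.1 x.2.2) * (((∑ u ∈ A ∪ B, c (join x.1.1 x.1.2 x.2.1 x.2.2) u * y u) +
        d (join x.1.1 x.1.2 x.2.1 x.2.2)) * PP (k + 1) y (join x.1.1 x.1.2 x.2.1 x.2.2)) = 0 := by
    intro y
    have h2 := hrel y
    rw [split_sum eta hAB hD hD' (fun T => ((∑ u ∈ A ∪ B, c T u * y u) + d T) * PP (k + 1) y T)
      (by
        intro T hT
        by_contra hne
        obtain ⟨h3, h4⟩ := hc T hne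
        apply hT
        rw [h3, Finset.sum_eq_zero (fun u _ => by rw [h4 u, zero_mul]), zero_add, zero_mul])] at h2
    have h3 : (2 : ℝ) * ∑ x ∈ (tp A ×ˢ tp B) ×ˢ (A ×ˢ B), (kap eta D x.1.1 * kap eta D' x.1.2 *
      eta x.2.1 x.2.2) * (((∑ u ∈ A ∪ B, c (join x.1.1 x.1.2 x.2.1 x.2.2) u * y u) +
        d (join x.1.1 x.1.2 x.2.1 x.2.2)) * PP (k + 1) y (join x.1.1 x.1.2 x.2.1 x.2.2)) = 0 := by
      rw [← h2, Finset.mul_sum]
      apply Finset.sum_congr rfl
      rintro ⟨⟨T, T'⟩, a, b⟩ hx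
      simp only [Finset.mem_product] at hx
      have hab : a ≠ b := by
        intro h
        subst h
        exact Finset.disjoint_left.1 hAB hx.2.1 hx.2.2
      simp only
      rw [heta a b hab]
      ring
    linarith
  -- scaling
  have h2 : ∀ α β : ℝ, α ≠ 0 → β ≠ 0 → ∑ x ∈ (tp A ×ˢ tp B) ×ˢ (A ×ˢ B),
      (kap eta D x.1.1 * kap eta D' x.1.2 * eta x.2.1 x.2.2 *
        (PP (k + 1) y x.1.1 * PP (k + 1) y x.1.2)) *
      ((α * (∑ u ∈ A, c (join x.1.1 x.1.2 x.2.1 x.2.2) u * y u) +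
        β * (∑ u ∈ B, c (join x.1.1 x.1.2 x.2.1 x.2.2) u * y u) +
        ((∑ u ∈ B, c (join x.1.1 x.1.2 x.2.1 x.2.2) u) + d (join x.1.1 x.1.2 x.2.1 x.2.2))) *
        (1 + β * y x.2.2 - α * y x.2.1) ^ ((2 * k + 1) + 1)) = 0 := by
    intro α β hα hβ
    set y' : V → ℝ := fun v => if v ∈ A then α * y v else β * y v + 1 with hy'
    have hyA : ∀ u ∈ A, y' u = α * y u + 0 := by
      intro u hu
      rw [hy']
      simp only
      rw [if_pos hu, add_zero]
    have hyB : ∀ u ∈ B, y' u = β * y u + 1 := by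
      intro u hu
      rw [hy']
      simp only
      rw [if_neg (fun h => Finset.disjoint_left.1 hAB h hu)]
    have h3 := h1 y'
    have h4 : (((α ^ 2) ^ (k + 1)) ^ (A.card - 1) * ((β ^ 2) ^ (k + 1)) ^ (B.card - 1)) *
      ∑ x ∈ (tp A ×ˢ tp B) ×ˢ (A ×ˢ B),
      (kap eta D x.1.1 * kap eta D' x.1.2 * eta x.2.1 x.2.2 *
        (PP (k + 1) y x.1.1 * PP (k + 1) y x.1.2)) *
      ((α * (∑ u ∈ A, c (join x.1.1 x.1.2 x.2.1 x.2.2) u * y u) +
        β * (∑ u ∈ B, c (join x.1.1 x.1.2 x.2.1 x.2.2) u * y u) +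
        ((∑ u ∈ B, c (join x.1.1 x.1.2 x.2.1 x.2.2) u) + d (join x.1.1 x.1.2 x.2.1 x.2.2))) *
        (1 + β * y x.2.2 - α * y x.2.1) ^ ((2 * k + 1) + 1)) = 0 := by
      rw [← h3, Finset.mul_sum]
      apply Finset.sum_congr rfl
      rintro ⟨⟨T, T'⟩, a, b⟩ hx
      simp only [Finset.mem_product, mem_tp] at hx
      obtain ⟨⟨⟨hT, hTc⟩, hT', hTc'⟩, ha, hb⟩ := hx
      simp only
      rw [PP_join (k + 1) hAB hT hT' ha hb, PP_scale (k + 1) hyA hT, PP_scale (k + 1) hyB hT',
        Finset.sum_union hAB, hyA a ha, hyB b hb]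
      have e1 : A.card - 1 = T.card := by omega
      have e2 : B.card - 1 = T'.card := by omega
      rw [e1, e2]
      have e3 : ∑ u ∈ A, c (join T T' a b) u * y' u = α * ∑ u ∈ A, c (join T T' a b) u * y u := by
        rw [Finset.mul_sum]
        apply Finset.sum_congr rfl
        intro u hu
        rw [hyA u hu]
        ring
      have e4 : ∑ u ∈ B, c (join T T' a b) u * y' u =
          β * ∑ u ∈ B, c (join T T' a b) u * y u + ∑ u ∈ B, c (join T T' a b) u := by
        rw [Finset.mul_sum, ← Finset.sum_add_distrib]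
        apply Finset.sum_congr rfl
        intro u hu
        rw [hyB u hu]
        ring
      rw [e3, e4]
      have e5 : ((α * y a + 0 - (β * y b + 1)) ^ 2) ^ (k + 1) =
          (1 + β * y b - α * y a) ^ ((2 * k + 1) + 1) := by
        rw [show (2 * k + 1) + 1 = 2 * (k + 1) by ring, pow_mul]
        congr 1
        ring
      rw [e5]
      ring
    rcases mul_eq_zero.1 h4 with h5 | h5
    · exfalso
      have : (((α ^ 2) ^ (k + 1)) ^ (A.card - 1) * ((β ^ 2) ^ (k + 1)) ^ (B.card - 1)) ≠ 0 := by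
        positivity
      exact this h5
    · exact h5
  have h3 := mixed _ _ _ _ _ _ _ (2 * k + 1) h2
  rw [← h3, Finset.sum_product, Finset.sum_product]
  apply Finset.sum_congr rfl
  intro T _
  rw [Finset.mul_sum]
  apply Finset.sum_congr rfl
  intro T' _
  rw [Finset.sum_product]
  simp only
  -- both sides as sums over pairs
  have e1 : ∑ x ∈ A, ∑ w ∈ B, y x * y w * CC eta k A B c d T T' x w =
      (∑ x ∈ A, ∑ w ∈ B, ∑ a ∈ A, y x * y w * (eta a w * c (join T T' a w) x)) -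
      (∑ x ∈ A, ∑ w ∈ B, ∑ b ∈ B, y x * y w * (eta x b * c (join T T' x b) w)) -
      (∑ x ∈ A, ∑ w ∈ B, y x * y w * ((2 * k + 1 : ℕ) *
        (eta x w * ((∑ u ∈ B, c (join T T' x w) u) + d (join T T' x w))))) := by
    rw [← Finset.sum_sub_distrib, ← Finset.sum_sub_distrib]
    apply Finset.sum_congr rfl
    intro x _
    rw [← Finset.sum_sub_distrib, ← Finset.sum_sub_distrib]
    apply Finset.sum_congr rfl
    intro w _
    unfold CC
    rw [← Finset.mul_sum, ← Finset.mul_sum]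
    ring
  have e2 : ∑ x ∈ A, ∑ w ∈ B, ∑ a ∈ A, y x * y w * (eta a w * c (join T T' a w) x) =
      ∑ a ∈ A, ∑ b ∈ B, eta a b * ((∑ u ∈ A, c (join T T' a b) u * y u) * y b) := by
    rw [Finset.sum_comm]
    rw [Finset.sum_comm (s := A) (t := B)]
    apply Finset.sum_congr rfl
    intro w _
    rw [Finset.sum_comm]
    apply Finset.sum_congr rfl
    intro a _
    rw [Finset.sum_mul, Finset.mul_sum]
    apply Finset.sum_congr rfl
    intro x _
    ring
  have e3 : ∑ x ∈ A, ∑ w ∈ B, ∑ b ∈ B, y x * y w * (eta x b * c (join T T' x b) w) =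
      ∑ a ∈ A, ∑ b ∈ B, eta a b * ((∑ u ∈ B, c (join T T' a b) u * y u) * y a) := by
    apply Finset.sum_congr rfl
    intro x _
    rw [Finset.sum_comm]
    apply Finset.sum_congr rfl
    intro b _
    rw [Finset.sum_mul, Finset.mul_sum]
    apply Finset.sum_congr rfl
    intro w _
    ring
  rw [e1, e2, e3]
  rw [← Finset.sum_sub_distrib, ← Finset.sum_sub_distrib]
  rw [Finset.mul_sum, Finset.mul_sum]
  apply Finset.sum_congr rfl
  intro a _
  rw [← Finset.sum_sub_distrib, ← Finset.sum_sub_distrib, Finset.mul_sum, Finset.mul_sum]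
  apply Finset.sum_congr rfl
  intro b _
  ring

end Pool.Agent.W225.RP
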