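import Pool.Agent.W225.RP.Indep
import Pool.Agent.H568R3.Core

/-!
# Linear independence of the signed tree functions
-/

set_option autoImplicit false
set_option linter.unusedSectionVars false

namespace Pool.Agent.W225.RP

open Finset
open Pool.Agent.H568R3 (ph)

variable {V : Type*} [DecidableEq V]

/-- The product of a function over the edges in `H` between the letters of a word. -/
noncomputable def LP (g : V → V → ℝ) (H : Finset (Sym2 V)) : List V → ℝ
  | [] => 1
  | a :: w => LP g H w * (w.map fun b => if s(a, b) ∈ H then g a b else 1).prod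

theorem LP_psi (eta : V → V → ℝ) (H : Finset (Sym2 V)) (w : List V) :
    LP eta H w = psi eta H w := by
  induction w with
  | nil => rfl
  | cons a w ih =>
    rw [psi_cons, ← ih]
    rfl

theorem EA_insert {A : Finset V} {a : V} (ha : a ∉ A) :
    EA (insert a A) = EA A ∪ A.image fun b => s(a, b) := by
  ext e
  induction e with
  | h x y =>
    rw [Finset.mem_union, mem_EA, mem_EA, Finset.mem_image]
    simp only [Finset.mem_insert, Sym2.eq_iff]
    constructor
    · rintro ⟨hx | hx, hy | hy, hxy⟩
      · exact absurd (hx.trans hy.symm) hxy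
      · exact Or.inr ⟨y, hy, Or.inl ⟨hx.symm, rfl⟩⟩
      · exact Or.inr ⟨x, hx, Or.inr ⟨hy.symm, rfl⟩⟩
      · exact Or.inl ⟨hx, hy, hxy⟩
    · rintro (⟨hx, hy, hxy⟩ | ⟨b, hb, (⟨h1, h2⟩ | ⟨h1, h2⟩)⟩)
      · exact ⟨Or.inr hx, Or.inr hy, hxy⟩
      · subst h1 h2
        exact ⟨Or.inl rfl, Or.inr hb, fun h => ha (h ▸ hb)⟩
      · subst h1 h2
        exact ⟨Or.inr hb, Or.inl rfl, fun h => ha (h ▸ hb)⟩

theorem LP_eq (g : V → V → ℝ) (G : Sym2 V → ℝ) (H : Finset (Sym2 V)) : ∀ (w : List V), w.Nodup →
    (w.Pairwise fun a b => G s(a, b) = g a b) → LP g H w = ∏ e ∈ H ∩ EA w.toFinset, G e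
  | [], _, _ => by
    have h1 : EA (∅ : Finset V) = ∅ := by
      apply Finset.eq_empty_of_forall_notMem
      intro e he
      induction e with
      | h x y =>
        rw [mem_EA] at he
        exact absurd he.1 (Finset.notMem_empty x)
    rw [List.toFinset_nil, h1, Finset.inter_empty, Finset.prod_empty]
    rfl
  | a :: w, hn, hp => by
    rw [List.nodup_cons] at hn
    rw [List.pairwise_cons] at hp
    show LP g H w * (w.map fun b => if s(a, b) ∈ H then g a b else 1).prod = _
    rw [LP_eq g G H w hn.2 hp.2]
    have ha : a ∉ w.toFinset := fun h => hn.1 (List.mem_toFinset.1 h)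
    rw [List.toFinset_cons, EA_insert ha, Finset.inter_union_distrib_left, Finset.prod_union]
    · congr 1
      rw [← List.prod_toFinset _ hn.2]
      have h2 : H ∩ (w.toFinset.image fun b => s(a, b)) =
          (w.toFinset.filter fun b => s(a, b) ∈ H).image fun b => s(a, b) := by
        ext e
        simp only [Finset.mem_inter, Finset.mem_image, Finset.mem_filter]
        constructor
        · rintro ⟨h3, b, hb, rfl⟩
          exact ⟨b, ⟨hb, h3⟩, rfl⟩
        · rintro ⟨b, ⟨hb, h3⟩, rfl⟩
          exact ⟨h3, b, hb, rfl⟩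
      rw [h2, Finset.prod_image, Finset.prod_filter]
      · apply Finset.prod_congr rfl
        intro b hb
        rw [hp.1 b (List.mem_toFinset.1 hb)]
      · intro b _ b' _ h
        rcases Sym2.eq_iff.1 h with ⟨-, h1⟩ | ⟨h1, h2⟩
        · exact h1
        · rw [← h1, h2]
    · rw [Finset.disjoint_left]
      intro e he he'
      rw [Finset.mem_inter] at he he'
      obtain ⟨b, -, rfl⟩ := Finset.mem_image.1 he'.2
      exact ha (mem_EA.1 he.2).1

variable [Fintype V]

/-- The sign of an ordered pair of vertices in a fixed enumeration. -/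
noncomputable def et (u v : V) : ℝ :=
  if ((Fintype.equivFin V u : Fin _) : ℕ) < (Fintype.equivFin V v : Fin _) then 1 else -1

theorem et_sgn : Sgn (et : V → V → ℝ) := by
  have h : ∀ u v : V, u ≠ v → ((Fintype.equivFin V u : Fin _) : ℕ) ≠ (Fintype.equivFin V v : Fin _) :=
    fun u v huv h => huv ((Fintype.equivFin V).injective (Fin.ext h))
  constructor
  · intro u v huv
    unfold et
    have := h u v huv
    by_cases h1 : ((Fintype.equivFin V u : Fin _) : ℕ) < (Fintype.equivFin V v : Fin _)
    · rw [if_pos h1, if_neg (by omega)]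
    · rw [if_neg h1, if_pos (by omega), neg_neg]
  · intro u v _
    unfold et
    split_ifs <;> norm_num

theorem et_mul_self (u v : V) : et u v * et u v = 1 := by
  unfold et
  split_ifs <;> norm_num

theorem ph_neg (s y : ℝ) : ph s (-y) = -ph s y := by
  unfold ph
  rw [abs_neg]
  ring

/-- The value of an edge. -/
noncomputable def phi (s : ℝ) (x : V → ℝ) (e : Sym2 V) : ℝ :=
  Sym2.lift ⟨fun u v => et u v * ph s (x v - x u), by
    intro u v
    simp only
    by_cases huv : u = v
    · subst huv
      rfl
    · rw [et_sgn.anti u v huv, ← neg_sub (x v) (x u), ph_neg]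
      ring⟩ e

theorem phi_mk (s : ℝ) (x : V → ℝ) (u v : V) : phi s x s(u, v) = et u v * ph s (x v - x u) := rfl

theorem ph_even (k : ℕ) {y : ℝ} (hy : 0 < y) : ph (2 * (k + 1) : ℕ) y = (y ^ 2) ^ (k + 1) := by
  unfold ph
  rw [abs_of_pos hy, ← Real.rpow_add_one hy.ne', sub_add_cancel, Real.rpow_natCast, pow_mul]

/-- The product of the values of the edges. -/
noncomputable def WW (s : ℝ) (x : V → ℝ) (T : Finset (Sym2 V)) : ℝ := ∏ e ∈ T, phi s x e

theorem WW_eq (k : ℕ) {w : List V} (hw : w.Nodup) (hwu : w.toFinset = Finset.univ) {x : V → ℝ}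
    (hx : w.Pairwise fun a b => x a < x b) {T : Finset (Sym2 V)} (hT : T ⊆ EA Finset.univ) :
    WW (2 * (k + 1) : ℕ) x T = psi et T w * PP (k + 1) x T := by
  have h1 : T ∩ EA w.toFinset = T := by
    rw [hwu]
    exact Finset.inter_eq_left.2 hT
  have h2 := LP_eq (fun a b => phi ((2 * (k + 1) : ℕ) : ℝ) x s(a, b))
    (phi ((2 * (k + 1) : ℕ) : ℝ) x) T w hw (List.pairwise_iff_forall_sublist.2 fun _ => rfl)
  have h3 := LP_eq (fun a b => pw (k + 1) x s(a, b)) (pw (k + 1) x) T w hw
    (List.pairwise_iff_forall_sublist.2 fun _ => rfl)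
  rw [h1] at h2 h3
  unfold WW PP
  rw [← h2, ← h3, ← LP_psi]
  clear h1 h2 h3 hwu hw
  induction w with
  | nil => simp [LP]
  | cons a w ih =>
    rw [List.pairwise_cons] at hx
    show LP _ T w * _ = (LP _ T w * _) * (LP _ T w * _)
    rw [ih hx.2]
    have h4 : (w.map fun b => if s(a, b) ∈ T then phi ((2 * (k + 1) : ℕ) : ℝ) x s(a, b)
        else 1).prod = (w.map fun b => if s(a, b) ∈ T then et a b else 1).prod *
          (w.map fun b => if s(a, b) ∈ T then pw (k + 1) x s(a, b) else 1).prod := by
      rw [← List.prod_map_mul]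
      congr 1
      apply List.map_congr_left
      intro b hb
      split_ifs
      · rw [phi_mk, pw_mk, ph_even k (sub_pos.2 (hx.1 b hb))]
        rw [show (x b - x a) ^ 2 = (x a - x b) ^ 2 by ring]
      · rw [one_mul]
    rw [h4]
    ring

/-- The polynomial of an edge. -/
noncomputable def pwP (k : ℕ) (e : Sym2 V) : MvPolynomial V ℝ :=
  Sym2.lift ⟨fun u v => ((MvPolynomial.X u - MvPolynomial.X v) ^ 2) ^ k, by
    intro u v
    simp only
    rw [show (MvPolynomial.X u - MvPolynomial.X v : MvPolynomial V ℝ) ^ 2 =
      (MvPolynomial.X v - MvPolynomial.X u) ^ 2 by ring]⟩ e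

theorem eval_pwP (k : ℕ) (y : V → ℝ) (e : Sym2 V) : MvPolynomial.eval y (pwP k e) = pw k y e := by
  induction e with
  | h u v =>
    show MvPolynomial.eval y (((MvPolynomial.X u - MvPolynomial.X v) ^ 2) ^ k) = _
    simp [pw_mk]

/-- A relation between the signed tree functions gives relations between polynomials. -/
theorem rel_word (k : ℕ) (c : Finset (Sym2 V) → ℝ)
    (h : ∀ x : V → ℝ, Function.Injective x →
      ∑ T ∈ (EA Finset.univ).powerset, c T * WW (2 * (k + 1) : ℕ) x T = 0)
    {w : List V} (hw : w.Nodup) (hwu : w.toFinset = Finset.univ) (y : V → ℝ) :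
    ∑ T ∈ (EA Finset.univ).powerset, c T * psi et T w * PP (k + 1) y T = 0 := by
  classical
  set p : MvPolynomial V ℝ := ∑ T ∈ (EA Finset.univ).powerset,
    MvPolynomial.C (c T * psi et T w) * ∏ e ∈ T, pwP (k + 1) e with hp
  have hev : ∀ y : V → ℝ, MvPolynomial.eval y p =
      ∑ T ∈ (EA Finset.univ).powerset, c T * psi et T w * PP (k + 1) y T := by
    intro y
    rw [hp, map_sum]
    apply Finset.sum_congr rfl
    intro T _
    rw [map_mul, MvPolynomial.eval_C, map_prod]
    unfold PP
    congr 1
    exact Finset.prod_congr rfl fun e _ => eval_pwP _ _ _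
  set I : V → Set ℝ := fun v => Set.Ioo (w.idxOf v : ℝ) (w.idxOf v + 1) with hI
  have h0 : p = 0 := by
    apply MvPolynomial.funext_set I
    · intro v
      exact Set.Ioo_infinite (by linarith)
    · intro x hx
      have hx' : ∀ v, (w.idxOf v : ℝ) < x v ∧ x v < w.idxOf v + 1 := fun v => hx v (Set.mem_univ v)
      have hmono : ∀ u v, w.idxOf u < w.idxOf v → x u < x v := by
        intro u v huv
        have h1 : (w.idxOf u : ℝ) + 1 ≤ w.idxOf v := by exact_mod_cast huv
        linarith [(hx' u).2, (hx' v).1]
      have hmem : ∀ v, v ∈ w := fun v => List.mem_toFinset.1 (by rw [hwu]; exact Finset.mem_univ v)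
      have hinj : Function.Injective x := by
        intro u v huv
        rcases lt_trichotomy (w.idxOf u) (w.idxOf v) with h1 | h1 | h1
        · exact absurd huv (hmono u v h1).ne
        · exact (List.idxOf_inj (hmem u)).1 h1
        · exact absurd huv.symm (hmono v u h1).ne
      have hpw : w.Pairwise fun a b => x a < x b := by
        rw [List.pairwise_iff_getElem]
        intro i j hi hj hij
        apply hmono
        rw [hw.idxOf_getElem, hw.idxOf_getElem]
        exact hij
      rw [hev, map_zero, ← h x hinj]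
      apply Finset.sum_congr rfl
      intro T hT
      rw [WW_eq k hw hwu hpw (Finset.mem_powerset.1 hT)]
      ring
  rw [← hev, h0, map_zero]

/-- **The signed tree functions are linearly independent** (even exponents at least two). -/
theorem tree_indep (k : ℕ) (c : Finset (Sym2 V) → ℝ) (hc : ∀ T, c T ≠ 0 → Sup Finset.univ T)
    (h : ∀ x : V → ℝ, Function.Injective x →
      ∑ T ∈ (EA Finset.univ).powerset, c T * WW (2 * (k + 1) : ℕ) x T = 0) (T : Finset (Sym2 V)) :
    c T = 0 := by
  classical
  rcases isEmpty_or_nonempty V with hV | ⟨⟨a0⟩⟩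
  · by_contra hne
    have := (hc T hne).2.1
    rw [Finset.univ_eq_empty, Finset.card_empty] at this
    omega
  · have h1 := indep et_sgn k Finset.univ (fun T a => if a = a0 then c T else 0) (by
      intro T u hne
      by_cases hu : u = a0
      · rw [if_pos hu] at hne
        exact hc T hne
      · rw [if_neg hu] at hne
        exact absurd rfl hne) (by
      intro D hD y
      have h2 : ∀ T : Finset (Sym2 V), kap et D T *
          ((∑ u ∈ Finset.univ, (if u = a0 then c T else 0) * y u) * PP (k + 1) y T) =
          D.ev (fun w => (c T * y a0 * PP (k + 1) y T) * psi et T w) := by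
        intro T
        rw [D.ev_mul]
        have h3 : ∑ u ∈ Finset.univ, (if u = a0 then c T else 0) * y u = c T * y a0 := by
          rw [Finset.sum_eq_single a0]
          · rw [if_pos rfl]
          · intro b _ hb
            rw [if_neg hb, zero_mul]
          · intro h
            exact absurd (Finset.mem_univ _) h
        rw [h3]
        unfold kap
        ring
      have h4 := D.ev_sum (EA (Finset.univ : Finset V)).powerset
        (fun T => c T * y a0 * PP (k + 1) y T) (fun T => psi et T)
      rw [Finset.sum_congr rfl fun T _ => (h2 T).trans (D.ev_mul _ _), ← h4]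
      apply D.ev_zero
      intro w hw
      have hwn : w.Nodup := hw.nodup_iff.2 hD.1
      have hwu : w.toFinset = Finset.univ := by
        rw [← hD.2]
        ext a
        rw [List.mem_toFinset, List.mem_toFinset, hw.mem_iff]
      have h5 := rel_word k c h hwn hwu y
      have h6 : ∑ T ∈ (EA Finset.univ).powerset, c T * y a0 * PP (k + 1) y T * psi et T w =
          y a0 * ∑ T ∈ (EA Finset.univ).powerset, c T * psi et T w * PP (k + 1) y T := by
        rw [Finset.mul_sum]
        apply Finset.sum_congr rfl
        intro T _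
        ring
      rw [h6, h5, mul_zero])
    have h2 := h1 T a0 (Finset.mem_univ a0)
    rwa [if_pos rfl] at h2

end Pool.Agent.W225.RP
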